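import Pool.Agent.OCY.St
import Pool.Agent.Lib_helper55.Beil.LinAlg
import Pool.Agent.Lib_helper55.Beil.Geom

/-!
# OCY, module ALG: classes of cycles and generalised eigenspaces
-/

set_option autoImplicit false

open CategoryTheory AlgebraicGeometry

namespace OCY

open Pool.Agent.Lib_helper55.Beil (Var mem_maxGen_iff maxGen_map maxGen_lift maxGen_eq_bot dim_map)
open OCB

universe v

namespace ALG_aux

variable {k : Type} [Field k] {E : Type} [Field E] {T : Th.{v} k E} (hT : T.Pub)

include hT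

lemma frob_C (i : ℕ) (X : Var k) (c : Ps i X →₀ E) : T.fr i (2 * i) X (T.C c) = T.C c := by
  have h : (T.fr i (2 * i) X) ∘ₗ (Finsupp.linearCombination E (T.cl i X)) =
      Finsupp.linearCombination E (T.cl i X) := by
    apply Finsupp.lhom_ext
    intro x e
    rw [LinearMap.comp_apply, Finsupp.linearCombination_single, map_smul]
    congr 1
    exact hT.frob.cls i X x
  exact congrArg (fun f => f c) h

lemma mem (i : ℕ) (X : Var k) (c : Ps i X →₀ E) :
    T.C c ∈ Module.End.maxGenEigenspace (T.fr i (2 * i) X) 1 := by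
  refine (mem_maxGen_iff _ _).mpr ⟨1, ?_⟩
  rw [pow_one, LinearMap.sub_apply, Module.End.one_apply, frob_C hT, sub_self]

lemma iff (i : ℕ) (X : Var k) : Alg T i X ↔ T.Surj i X ∧ T.Semi i X := by
  constructor
  · intro h
    constructor
    · intro m hm
      have hm' : T.fr i (2 * i) X m = m := hm
      apply h
      refine (mem_maxGen_iff _ _).mpr ⟨1, ?_⟩
      rw [pow_one, LinearMap.sub_apply, Module.End.one_apply, hm', sub_self]
    · intro m hm
      have hm' : T.fr i (2 * i) X (T.fr i (2 * i) X m - m) = T.fr i (2 * i) X m - m := hm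
      obtain ⟨c, hc⟩ := h m (by
        refine (mem_maxGen_iff _ _).mpr ⟨2, ?_⟩
        rw [pow_two, Module.End.mul_apply, LinearMap.sub_apply, LinearMap.sub_apply,
          Module.End.one_apply, Module.End.one_apply, hm', sub_self])
      rw [← hc]
      exact frob_C hT i X c
  · rintro ⟨h1, h2⟩ m hm
    have key : ∀ (r : ℕ) (m : T.H i (2 * i) X), ((T.fr i (2 * i) X - 1) ^ (r + 1)) m = 0 →
        T.fr i (2 * i) X m = m := by
      intro r
      induction r with
      | zero =>
        intro m hm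
        rw [zero_add, pow_one, LinearMap.sub_apply, Module.End.one_apply, sub_eq_zero] at hm
        exact hm
      | succ r ih =>
        intro m hm
        rw [pow_succ, Module.End.mul_apply] at hm
        have h3 := ih _ hm
        rw [LinearMap.sub_apply, Module.End.one_apply] at h3
        exact h2 m h3
    obtain ⟨r, hr⟩ := (mem_maxGen_iff _ _).mp hm
    have h4 : ((T.fr i (2 * i) X - 1) ^ (r + 1)) m = 0 := by
      rw [pow_succ', Module.End.mul_apply, hr, map_zero]
    exact h1 m (key r m h4)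

lemma push (i : ℕ) {X Y : Var k} (f : Mo X Y) (hf : f.Pr) (c : Ps i X →₀ E) :
    T.P f (T.C c) = T.C (pfc E i f c) := by
  have h : (T.pf i (2 * i) f) ∘ₗ (Finsupp.linearCombination E (T.cl i X)) =
      (Finsupp.linearCombination E (T.cl i Y)) ∘ₗ (pfc E i f) := by
    apply Finsupp.lhom_ext
    intro x e
    rw [LinearMap.comp_apply, LinearMap.comp_apply, Finsupp.linearCombination_single, map_smul,
      pfc, Finsupp.linearCombination_single, map_smul]
    congr 1
    have h1 := hT.cyc.push i f hf x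
    by_cases h2 : di Y (im f x.1) = i
    · have h3 : pfp E i f x = Finsupp.single ⟨im f x.1, h2⟩ (deg f x.1 : E) := dif_pos h2
      rw [h3, Finsupp.linearCombination_single]
      exact h1.1 h2
    · have h3 : pfp E i f x = 0 := dif_neg h2
      rw [h3, map_zero]
      exact h1.2 h2
  exact congrArg (fun f => f c) h

lemma res (i : ℕ) {Z V X : Var k} (a : Mo Z X) (j : Mo V X) (hc : Comp a j)
    (ρ : (Ps i X →₀ E) →ₗ[E] (Ps i V →₀ E)) (hρ : Restr E i j ρ) (c : Ps i X →₀ E) :
    T.R j (T.C c) = T.C (ρ c) := by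
  have hj : IsOpenImmersion j.g := hc.2.1
  have ha : IsClosedImmersion a.g := hc.1
  have h : (T.pb i (2 * i) j) ∘ₗ (Finsupp.linearCombination E (T.cl i X)) =
      (Finsupp.linearCombination E (T.cl i V)) ∘ₗ ρ := by
    apply Finsupp.lhom_ext
    intro x e
    have he : (Finsupp.single x e : Ps i X →₀ E) = e • Finsupp.single x 1 := by
      rw [Finsupp.smul_single, smul_eq_mul, mul_one]
    rw [he, map_smul, map_smul]
    congr 1
    rw [LinearMap.comp_apply, LinearMap.comp_apply, Finsupp.linearCombination_single, one_smul]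
    by_cases h1 : ∃ v, im j v = x.1
    · obtain ⟨v, hv⟩ := h1
      obtain ⟨x, hx⟩ := x
      change im j v = x at hv
      subst hv
      have hdv : di V v = i := (dim_map j.g j.comm v).symm.trans hx
      have h2 := hρ.pt ⟨v, hdv⟩ hx
      have h3 := hT.cyc.res i j hc.2.1 ⟨v, hdv⟩ hx
      rw [h2, Finsupp.linearCombination_single, one_smul]
      exact h3
    · rw [hρ.out x h1, map_zero]
      obtain ⟨z, hz⟩ := (hc.2.2 x.1).mpr h1
      obtain ⟨x, hx⟩ := x
      change im a z = x at hz
      subst hz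
      have hdz : di Z z = i := (dim_map a.g a.comm z).symm.trans hx
      have h2 := hT.cyc.closed i a hc.1 ⟨z, hdz⟩ hx
      exact (hT.loc.atX i (2 * i) a j hc _).mpr ⟨_, h2⟩
  exact congrArg (fun f => f c) h

lemma lift (i : ℕ) {X Y : Var k} (f : Mo X Y) (hf : f.Pr) (m : T.H i (2 * i) X)
    (hm : T.P f m ∈ Module.End.maxGenEigenspace (T.fr i (2 * i) Y) 1) :
    ∃ m' ∈ Module.End.maxGenEigenspace (T.fr i (2 * i) X) 1, T.P f m' = T.P f m := by
  have hfin := T.fin i (2 * i) X
  exact maxGen_lift (T.fr i (2 * i) X) (T.fr i (2 * i) Y) (T.pf i (2 * i) f)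
    (fun m => hT.frob.push i (2 * i) f hf m) hm

lemma opn (i : ℕ) {Z V X : Var k} (a : Mo Z X) (j : Mo V X) (hc : Comp a j)
    (u : T.H (i + 1) (2 * (i + 1)) V)
    (hu : u ∈ Module.End.maxGenEigenspace (T.fr (i + 1) (2 * (i + 1)) V) 1) :
    ∃ m ∈ Module.End.maxGenEigenspace (T.fr (i + 1) (2 * (i + 1)) X) 1, T.R j m = u := by
  have hB : (T.bd (i + 1) (2 * i + 1) a j u : T.H (i + 1) (2 * i + 1) Z) ∈
      Module.End.maxGenEigenspace (T.fr (i + 1) (2 * i + 1) Z) 1 :=
    maxGen_map (T.fr (i + 1) (2 * (i + 1)) V) (T.fr (i + 1) (2 * i + 1) Z)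
      (T.bd (i + 1) (2 * i + 1) a j)
      (fun m => hT.frob.boundary (i + 1) (2 * i + 1) a j hc m) hu
  have hB0 : (T.bd (i + 1) (2 * i + 1) a j u : T.H (i + 1) (2 * i + 1) Z) = 0 :=
    maxGen_eq_bot _ (fun m hm => hT.weights (i + 1) (2 * i + 1) Z (by ring) m hm) hB
  obtain ⟨m, hm⟩ := (hT.loc.atU (i + 1) (2 * i + 1) a j hc u).mp hB0
  have hm' : (T.pb (i + 1) (2 * (i + 1)) j m : T.H (i + 1) (2 * (i + 1)) V) = u := hm
  have hfin := T.fin (i + 1) (2 * (i + 1)) X
  obtain ⟨m', h1, h2⟩ := maxGen_lift (T.fr (i + 1) (2 * (i + 1)) X) (T.fr (i + 1) (2 * (i + 1)) V)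
    (T.pb (i + 1) (2 * (i + 1)) j)
    (fun m => hT.frob.res (i + 1) (2 * (i + 1)) j hc.2.1 m) (m := m) (by rw [hm']; exact hu)
  exact ⟨m', h1, h2.trans hm'⟩

end ALG_aux

theorem t_ALG {k : Type} [Field k] {E : Type} [Field E] (T : Th.{v} k E) : ALGS T := fun hT =>
  { iff := ALG_aux.iff hT
    mem := ALG_aux.mem hT
    push := fun i _ _ f hf c => ALG_aux.push hT i f hf c
    res := fun i _ _ _ a j hc ρ hρ c => ALG_aux.res hT i a j hc ρ hρ c
    lift := fun i _ _ f hf m hm => ALG_aux.lift hT i f hf m hm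
    opn := fun i _ _ _ a j hc u hu => ALG_aux.opn hT i a j hc u hu }

end OCY
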