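import Pool.Agent.OCY.ALG

/-!
# OCY, module ASM: the main argument
-/

set_option autoImplicit false

open CategoryTheory AlgebraicGeometry

namespace OCY

open Pool.Agent.Lib_helper55.Beil (Var mem_maxGen_iff maxGen_map maxGen_lift maxGen_eq_bot dim_map)
open OCB

universe v

/-- The statements of the modules. -/
structure Mods (k : Type) [Field k] (E : Type) [Field E] (T : Th.{v} k E) : Prop where
  lin : LIN.{v}
  fib : FIB k
  pts : PTS
  pff : PFF
  opn : OPN k E
  dua : DUA T
  alg : ALG T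

namespace ASM_aux

variable {k : Type} [Field k] {E : Type} [Field E] {T : Th.{v} k E}

/-- The degrees on line bundles. -/
def degs (hL : Lines T) {X : Var k} (hX : Proper X) : AddSubgroup (T.H 1 2 X →ₗ[E] E) where
  carrier := {φ | IsDeg T φ}
  zero_mem' := hL.triv hX
  neg_mem' := by
    intro φ h
    have h1 := hL.sub hX 0 φ (hL.triv hX) h
    rw [zero_sub] at h1
    exact h1
  add_mem' := by
    intro φ ψ h1 h2
    have h3 := hL.sub hX 0 ψ (hL.triv hX) h2
    have h4 := hL.sub hX φ (0 - ψ) h1 h3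
    rw [zero_sub, sub_neg_eq_add] at h4
    exact h4

lemma C_single (i : ℕ) (X : Var k) (x : Ps i X) : T.C (Finsupp.single x (1 : E)) = T.cl i X x := by
  have h : T.C (Finsupp.single x (1 : E)) = (1 : E) • T.cl i X x :=
    Finsupp.linearCombination_single E 1 x
  rw [h, one_smul]

lemma C_sub (i : ℕ) (X : Var k) (c d : Ps i X →₀ E) : T.C (c - d) = T.C c - T.C d :=
  map_sub (Finsupp.linearCombination E (T.cl i X)) c d

lemma P_sub {i n : ℕ} {X Y : Var k} (f : Mo X Y) (m m' : T.H i n X) :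
    T.P f (m - m') = T.P f m - T.P f m' := map_sub (T.pf i n f) m m'

/-- The composition. -/
def comp {X Y Z : Var k} (f : Mo X Y) (g : Mo Y Z) : Mo X Z :=
  ⟨f.g ≫ g.g, by rw [Category.assoc, g.comm, f.comm]⟩

lemma co_comp {X Y Z : Var k} (f : Mo X Y) (g : Mo Y Z) : Co f g (comp f g) := rfl

lemma ρ_out {i : ℕ} {Z V X : Var k} (a : Mo Z X) (j : Mo V X) (hc : Comp a j)
    (ρ : (Ps i X →₀ E) →ₗ[E] (Ps i V →₀ E)) (hρ : Restr E i j ρ) (c : Ps i Z →₀ E) :
    ρ (pfc E i a c) = 0 := by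
  have h : ρ ∘ₗ (pfc E i a) = 0 := by
    apply Finsupp.lhom_ext
    intro x e
    rw [LinearMap.comp_apply, pfc, Finsupp.linearCombination_single, map_smul, LinearMap.zero_apply]
    have key : ∀ (y : Ps i X) (r : E), (¬ ∃ v, im j v = y.1) → ρ (Finsupp.single y r) = 0 := by
      intro y r hy
      have h4 : (Finsupp.single y r : Ps i X →₀ E) = r • Finsupp.single y 1 := by
        rw [Finsupp.smul_single, smul_eq_mul, mul_one]
      rw [h4, map_smul, hρ.out y hy, smul_zero]
    have h0 : ρ (pfp E i a x) = 0 := by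
      by_cases h2 : di X (im a x.1) = i
      · have h3 : pfp E i a x = Finsupp.single ⟨im a x.1, h2⟩ (deg a x.1 : E) := dif_pos h2
        exact (congrArg ρ h3).trans (key ⟨im a x.1, h2⟩ _ ((hc.2.2 (im a x.1)).mp ⟨x.1, rfl⟩))
      · have h3 : pfp E i a x = 0 := dif_neg h2
        rw [h3, map_zero]
    rw [h0, smul_zero]
  exact congrArg (fun f => f c) h

/-- A cycle on the open subvariety is a restriction. -/
lemma ρ_surj (M : OPN k E) {i : ℕ} {V X : Var k} (j : Mo V X) (hj : j.Op)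
    (ρ : (Ps i X →₀ E) →ₗ[E] (Ps i V →₀ E)) (hρ : Restr E i j ρ) (c : Ps i V →₀ E) :
    ∃ c' : Ps i X →₀ E, ρ c' = c := by
  let ε : Ps i V → Ps i X := fun v => ⟨im j v.1, (M.dim j (Or.inl hj) v.1).trans v.2⟩
  refine ⟨Finsupp.linearCombination E (fun v => Finsupp.single (ε v) (1 : E)) c, ?_⟩
  have h : ρ ∘ₗ (Finsupp.linearCombination E (fun v => Finsupp.single (ε v) (1 : E))) =
      LinearMap.id := by
    apply Finsupp.lhom_ext
    intro v e
    rw [LinearMap.comp_apply, Finsupp.linearCombination_single, map_smul,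
      hρ.pt v ((M.dim j (Or.inl hj) v.1).trans v.2), LinearMap.id_apply, Finsupp.smul_single,
      smul_eq_mul, mul_one]
  exact congrArg (fun f => f c) h

/-- A cycle on the target of a surjective morphism is a push-forward. -/
lemma pfc_surj [CharZero E] (hP : PTS) {i : ℕ} {W X : Var k} (f : Mo W X) (hf : Onto f)
    (c : Ps i X →₀ E) : ∃ d : Ps i W →₀ E, pfc E i f d = c := by
  choose w h1 h2 using hP k f hf i
  refine ⟨Finsupp.linearCombination E
    (fun x => Finsupp.single (w x) ((deg f (w x).1 : E)⁻¹)) c, ?_⟩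
  have h : (pfc E i f) ∘ₗ (Finsupp.linearCombination E
      (fun x => Finsupp.single (w x) ((deg f (w x).1 : E)⁻¹))) = LinearMap.id := by
    apply Finsupp.lhom_ext
    intro x e
    rw [LinearMap.comp_apply, Finsupp.linearCombination_single, map_smul, pfc,
      Finsupp.linearCombination_single, LinearMap.id_apply]
    have h3 : di X (im f (w x).1) = i := by
      rw [h1 x]
      exact x.2
    have h4 : pfp E i f (w x) = Finsupp.single ⟨im f (w x).1, h3⟩ (deg f (w x).1 : E) := dif_pos h3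
    have h5 : (⟨im f (w x).1, h3⟩ : Ps i X) = x := Subtype.ext (h1 x)
    have h6 : (deg f (w x).1 : E) ≠ 0 := by exact_mod_cast h2 x
    rw [h4, h5, Finsupp.smul_single, Finsupp.smul_single, smul_eq_mul, smul_eq_mul,
      inv_mul_cancel₀ h6, mul_one]
  exact congrArg (fun f => f c) h

section Main

variable [CharZero E] (hT : T.Pub) (hF : Facts T) (M : Mods k E T)

include hT hF M

/-- Zero-cycles. -/
theorem inj_zero {X V : Var k} (j : Mo V X) (hX : Proper X) (hj : j.Op) : T.Inj 0 V := by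
  intro c hc0
  obtain ⟨Z, a, hc⟩ := M.opn.compl j hj
  obtain ⟨ρ, hρ⟩ := M.opn.restr 0 j hj
  have hap : a.Pr := M.fib.closed a hc.1
  obtain ⟨c', hc'⟩ := ρ_surj M.opn j hj ρ hρ c
  have h1 : T.R j (T.C c') = 0 := by rw [M.alg.res 0 a j hc ρ hρ, hc', hc0]
  obtain ⟨z, hz⟩ := (hT.loc.atX 0 (2 * 0) a j hc _).mp h1
  obtain ⟨z', h2, h3⟩ := M.alg.lift 0 a hap z (by rw [hz]; exact M.alg.mem 0 X c')
  obtain ⟨d, hd⟩ := (M.alg.iff 0 Z).mpr (hF.zero.surj Z) z' h2
  have h4 : T.C (c' - pfc E 0 a d) = 0 := by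
    rw [C_sub, ← M.alg.push 0 a hap, hd, h3, hz, sub_self]
  have h5 := hρ.rat _ (hF.zero.inj X hX _ h4)
  rw [map_sub, ρ_out a j hc ρ hρ, sub_zero, hc'] at h5
  exact h5

end Main

end ASM_aux

end OCY
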