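import Pool.Agent.OCY.St

/-!
# OCY: statement of the module CMP (the extension to proper images of open subvarieties)
-/

set_option autoImplicit false

open CategoryTheory AlgebraicGeometry

namespace OCY

open Pool.Agent.Lib_helper55.Beil (Var)
open OCB

/-- Compactification of the fibre product `R = V' x_V V'` inside `W x W` (`V'` open in the proper variety
`W`, `g : V' → V` proper): there are a proper variety `R'`, an open immersion `R → R'` and morphisms
`P, Q : R' → W` such that `R = P⁻¹ V' = Q⁻¹ V'` with `P | R = p` and `Q | R = q`.
Proof: let `e = (p, q) : R → V' x V' → W x W` (products over `Spec k`).  The morphism `(p, q)` is an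
immersion (a monomorphism, base change of the diagonal of `V`), thus `e` is an immersion.  Let `R'` be the
scheme-theoretic image (`Scheme.Hom.image`, closed in the proper `W x W`; `R → R'` is an open immersion,
instance for `toImage` in `Morphisms/Immersion.lean`), `P` and `Q` the projections.  The morphism
`R → V' x W` is proper (`p : R → V'` is proper, base change of `g`, and `V' x W → V'` is separated), so
its image is closed; as `V' x W` is open in `W x W`, a point of `R'` (in the closure of the image of `e`)
which lies over `V' x W` lies in the image of `e`, thus in `R`, by injectivity of `R' → W x W`.  Hence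
`P⁻¹ V' = R` on points and the square is cartesian (`IsOpenImmersion.isPullback`).  The same for `Q`
(`q : R → V'` is proper). -/
def CMP : Prop :=
  ∀ (k : Type) [Field k] {W V' V R : Var k} (j : Mo V' W) (g : Mo V' V) (p q : Mo R V'),
    Proper W → j.Op → g.Pr → Ca p q g g →
      ∃ (R' : Var k) (ι : Mo R R') (P Q : Mo R' W),
        Proper R' ∧ ι.Op ∧ Ca ι p P j ∧ Ca ι q Q j

/-- Base change of the push-forward of cycles along open immersions.  Proof: check it for a point `x` of
`R'`.  If `x = ι x'` then `P x = j (p x')`, the residue degrees of the open immersions `ι`, `j` are one,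
thus `deg P x = deg p x'`, and `Restr.pt`.  Otherwise `P x` is not in the image of `j` (the square is
cartesian) and both sides are zero by `Restr.out`. -/
def BCC : Prop :=
  ∀ (k : Type) [Field k] (E : Type) [Field E] (i : ℕ) {R R' V' W : Var k} (ι : Mo R R')
    (p : Mo R V') (P : Mo R' W) (j : Mo V' W), Ca ι p P j → ι.Op → j.Op →
    ∀ (ρ : (Ps i W →₀ E) →ₗ[E] (Ps i V' →₀ E)) (σ : (Ps i R' →₀ E) →ₗ[E] (Ps i R →₀ E)),
      Restr E i j ρ → Restr E i ι σ → ∀ c : Ps i R' →₀ E, ρ (pfc E i P c) = pfc E i p (σ c)

end OCY
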