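import Pool.Agent.OCY.ASM
import Pool.Agent.OCY.St2

/-!
# OCY, module ASM2: proper images of open subvarieties of good varieties
-/

set_option autoImplicit false

open CategoryTheory AlgebraicGeometry

namespace OCY

open Pool.Agent.Lib_helper55.Beil (Var mem_maxGen_iff maxGen_map maxGen_lift maxGen_eq_bot dim_map)
open OCB

universe v

namespace ASM2_aux

open ASM_aux

variable {k : Type} [Field k] {E : Type} [Field E] {T : Th.{v} k E}

lemma R_sub {i n : ℕ} {X Y : Var k} (f : Mo X Y) (m m' : T.H i n Y) :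
    T.R f (m - m') = T.R f m - T.R f m' := map_sub (T.pb i n f) m m'

section Main

variable [CharZero E] (hT : T.Pub) (hF : Facts T) (M : Mods k E T)

include hT hF M

theorem alg_open (i : ℕ) {W V : Var k} (j : Mo V W) (hj : j.Op) (hA : Alg T (i + 1) W) :
    Alg T (i + 1) V := by
  intro u hu
  obtain ⟨Z, a, hc⟩ := M.opn.compl j hj
  obtain ⟨ρ, hρ⟩ := M.opn.restr (i + 1) j hj
  obtain ⟨m, hm, hmu⟩ := M.alg.opn i a j hc u hu
  obtain ⟨c, hcc⟩ := hA m hm
  refine ⟨ρ c, ?_⟩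
  rw [← M.alg.res (i + 1) a j hc ρ hρ, hcc, hmu]

theorem alg_onto (i : ℕ) {V' V : Var k} (g : Mo V' V) (hg : g.Pr) (hgo : Onto g)
    (hA : Alg T i V') : Alg T i V := by
  intro m hm
  obtain ⟨m', hm'⟩ := hF.descent.onto i g hg hgo m hm
  obtain ⟨m'', h1, h2⟩ := M.alg.lift i g hg m' (by rw [hm']; exact hm)
  obtain ⟨c, hcc⟩ := hA m'' h1
  refine ⟨pfc E i g c, ?_⟩
  rw [← M.alg.push i g hg, hcc, h2, hm']

/-- A class in the generalised eigenspace with zero push-forward comes from the generalised eigenspace of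
the fibre product. -/
lemma descent_lift (i : ℕ) {R X Y : Var k} (p q : Mo R X) (f : Mo X Y) (hp : p.Pr) (hq : q.Pr)
    (hf : f.Pr) (hfo : Onto f) (hR : Ca p q f f) (m : T.H i (2 * i) X)
    (hm : m ∈ Module.End.maxGenEigenspace (T.fr i (2 * i) X) 1) (h0 : T.P f m = 0) :
    ∃ r ∈ Module.End.maxGenEigenspace (T.fr i (2 * i) R) 1, m = T.P p r - T.P q r := by
  obtain ⟨r, hr⟩ := hF.descent.exact i p q f hf hfo hR m hm h0
  have hfin := T.fin i (2 * i) R
  have hr' : (T.pf i (2 * i) p - T.pf i (2 * i) q) r = m := hr.symm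
  obtain ⟨r', h1, h2⟩ := maxGen_lift (T.fr i (2 * i) R) (T.fr i (2 * i) X)
    (T.pf i (2 * i) p - T.pf i (2 * i) q) (m := r) (by
      intro x
      have e1 : T.pf i (2 * i) p (T.fr i (2 * i) R x) = T.fr i (2 * i) X (T.pf i (2 * i) p x) :=
        hT.frob.push i (2 * i) p hp x
      have e2 : T.pf i (2 * i) q (T.fr i (2 * i) R x) = T.fr i (2 * i) X (T.pf i (2 * i) q x) :=
        hT.frob.push i (2 * i) q hq x
      rw [LinearMap.sub_apply, LinearMap.sub_apply, e1, e2, map_sub]) (by rw [hr']; exact hm)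
  exact ⟨r', h1, by rw [← hr', ← h2]; rfl⟩

/-- Zero-cycles. -/
theorem inj_zero' {W V' V : Var k} (j : Mo V' W) (g : Mo V' V) (hW : Proper W) (hj : j.Op)
    (hg : g.Pr) (hgo : Onto g) : T.Inj 0 V := by
  intro c hc0
  obtain ⟨R, p, q, hR⟩ := M.fib.ex g g
  have hpp : p.Pr := M.fib.pr' p q g g hR hg
  have hqp : q.Pr := M.fib.pr p q g g hR hg
  obtain ⟨c1, hc1⟩ := pfc_surj M.pts g hgo c
  have h1 : T.P g (T.C c1) = 0 := by rw [M.alg.push 0 g hg, hc1, hc0]
  obtain ⟨r, hr, hr1⟩ := descent_lift hT hF M 0 p q g hpp hqp hg hgo hR (T.C c1)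
    (M.alg.mem 0 V' c1) h1
  obtain ⟨d, hd⟩ := (M.alg.iff 0 R).mpr (hF.zero.surj R) r hr
  have h2 : T.C (c1 - (pfc E 0 p d - pfc E 0 q d)) = 0 := by
    rw [C_sub, C_sub, ← M.alg.push 0 p hpp, ← M.alg.push 0 q hqp, hd, ← hr1, sub_self]
  have h3 := hF.fulton 0 g hg _ (inj_zero hT hF M j hW hj _ h2)
  have e1 : pfc E 0 g (pfc E 0 p d) = pfc E 0 g (pfc E 0 q d) := by
    rw [M.pff k E 0 p g (ASM_aux.comp p g) rfl, M.pff k E 0 q g (ASM_aux.comp p g) hR.w.symm]
  rw [map_sub, map_sub, e1, sub_self, sub_zero, hc1] at h3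
  exact h3

/-- One-cycles: the class map is injective for proper images of open subvarieties of good varieties. -/
theorem inj_one' (hC : CMP) (hB : BCC) {W V' V : Var k} (j : Mo V' W) (g : Mo V' V)
    (hW : Num T W) (hj : j.Op) (hg : g.Pr) (hgo : Onto g) : T.Inj 1 V := by
  intro c hc0
  obtain ⟨Y, a, hc⟩ := M.opn.compl j hj
  obtain ⟨ρ, hρ⟩ := M.opn.restr 1 j hj
  have hap : a.Pr := M.fib.closed a hc.1
  have hYp : Proper Y := M.fib.trans a hap hW.proper
  -- the fibre product and its compactification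
  obtain ⟨R, p, q, hR⟩ := M.fib.ex g g
  have hpp : p.Pr := M.fib.pr' p q g g hR hg
  have hqp : q.Pr := M.fib.pr p q g g hR hg
  obtain ⟨R', ι, P, Q, hR'p, hι, hP, hQ⟩ := hC k j g p q hW.proper hj hg hR
  have hPp : P.Pr := M.fib.of P hR'p
  have hQp : Q.Pr := M.fib.of Q hR'p
  obtain ⟨B, b, hb⟩ := M.opn.compl ι hι
  obtain ⟨σ, hσ⟩ := M.opn.restr 1 ι hι
  -- the cycles
  obtain ⟨c1, hc1⟩ := pfc_surj M.pts g hgo c
  obtain ⟨cW, hcW⟩ := ρ_surj M.opn j hj ρ hρ c1
  have h1 : T.P g (T.C c1) = 0 := by rw [M.alg.push 1 g hg, hc1, hc0]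
  obtain ⟨r, hr, hr1⟩ := descent_lift hT hF M 1 p q g hpp hqp hg hgo hR (T.C c1)
    (M.alg.mem 1 V' c1) h1
  obtain ⟨r', hr', hr2⟩ : ∃ r' ∈ Module.End.maxGenEigenspace (T.fr 1 (2 * 1) R') 1, T.R ι r' = r :=
    M.alg.opn 0 b ι hb r hr
  have hbP : T.R j (T.P P r') = T.P p (T.R ι r') := hT.push.base 1 (2 * 1) ι p P j hPp hj hP r'
  have hbQ : T.R j (T.P Q r') = T.P q (T.R ι r') := hT.push.base 1 (2 * 1) ι q Q j hQp hj hQ r'
  have h2 : T.R j (T.C cW - (T.P P r' - T.P Q r')) = 0 := by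
    rw [R_sub, R_sub, hbP, hbQ, hr2, ← hr1, M.alg.res 1 a j hc ρ hρ, hcW, sub_self]
  obtain ⟨z, hz⟩ := (hT.loc.atX 1 (2 * 1) a j hc _).mp h2
  -- the double annihilator
  let S : Set (T.H 1 (2 * 1) W) :=
    {s | (∃ x : Ps 1 R', s = T.P P (T.cl 1 R' x) - T.P Q (T.cl 1 R' x)) ∨
      ∃ x : Ps 1 Y, s = T.P a (T.cl 1 Y x)}
  have hfin := T.fin 1 (2 * 1) W
  have hspan : T.C cW ∈ Submodule.span E S := by
    refine M.lin E (T.H 1 (2 * 1) W) (degs hF.lines hW.proper) S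
      (LinearMap.range (Finsupp.linearCombination E (T.cl 1 W))) ?_ ?_ ?_ (T.C cW) ⟨cW, rfl⟩ ?_
    · rintro φ hφ s (⟨x, rfl⟩ | ⟨x, rfl⟩)
      · obtain ⟨n, hn⟩ := hF.lines.int hR'p _ (hF.lines.pull P hR'p hW.proper φ hφ) x
        obtain ⟨m, hm⟩ := hF.lines.int hR'p _ (hF.lines.pull Q hR'p hW.proper φ hφ) x
        refine ⟨n - m, ?_⟩
        rw [map_sub]
        push_cast
        exact congrArg₂ (fun a b => a - b) hn hm
      · obtain ⟨n, hn⟩ := hF.lines.int hYp _ (hF.lines.pull a hYp hW.proper φ hφ) x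
        exact ⟨n, hn⟩
    · rintro _ ⟨d, rfl⟩ hd
      exact hT.cyc.rat 1 W d (hW.num d hd)
    · rintro s (⟨x, rfl⟩ | ⟨x, rfl⟩)
      · rw [← C_single, M.alg.push 1 P hPp, M.alg.push 1 Q hQp, ← C_sub]
        exact ⟨_, rfl⟩
      · rw [← C_single, M.alg.push 1 a hap]
        exact ⟨_, rfl⟩
    · intro φ hφ hS
      have e1 : φ ∘ₗ T.pf 1 2 a = 0 := by
        refine hF.lines.num hYp _ (hF.lines.pull a hYp hW.proper φ hφ) ?_
        intro x
        exact hS _ (Or.inr ⟨x, rfl⟩)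
      have e2 : φ ∘ₗ T.pf 1 2 P - φ ∘ₗ T.pf 1 2 Q = 0 := by
        refine hF.lines.num hR'p _ (hF.lines.sub hR'p _ _ (hF.lines.pull P hR'p hW.proper φ hφ)
          (hF.lines.pull Q hR'p hW.proper φ hφ)) ?_
        intro x
        have e3 := hS _ (Or.inl ⟨x, rfl⟩)
        rw [map_sub] at e3
        exact e3
      have e4 : φ (T.P a z) = 0 := congrArg (fun f => f z) e1
      have e5 : φ (T.P P r') - φ (T.P Q r') = 0 := congrArg (fun f => f r') e2
      have e6 : T.C cW = T.P a z + (T.P P r' - T.P Q r') := by rw [hz, sub_add_cancel]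
      rw [e6, map_add, map_sub, e4, zero_add]
      exact e5
  -- the cycles whose push-forward is rationally equivalent to zero
  let D : Submodule E (Ps 1 W →₀ E) := (rat E 1 V).comap ((pfc E 1 g) ∘ₗ ρ)
  have hD : Submodule.span E S ≤ D.map (Finsupp.linearCombination E (T.cl 1 W)) := by
    rw [Submodule.span_le]
    rintro s (⟨x, rfl⟩ | ⟨x, rfl⟩)
    · refine ⟨pfc E 1 P (Finsupp.single x 1) - pfc E 1 Q (Finsupp.single x 1), ?_, ?_⟩
      · have e1 : pfc E 1 g (ρ (pfc E 1 P (Finsupp.single x 1))) =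
            pfc E 1 g (ρ (pfc E 1 Q (Finsupp.single x 1))) := by
          rw [hB k E 1 ι p P j hP hι hj ρ σ hρ hσ, hB k E 1 ι q Q j hQ hι hj ρ σ hρ hσ,
            M.pff k E 1 p g (ASM_aux.comp p g) rfl, M.pff k E 1 q g (ASM_aux.comp p g) hR.w.symm]
        have e2 : pfc E 1 g (ρ (pfc E 1 P (Finsupp.single x 1) - pfc E 1 Q (Finsupp.single x 1))) ∈
            rat E 1 V := by
          rw [map_sub, map_sub, e1, sub_self]
          exact zero_mem _
        exact e2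
      · have e3 := C_sub (T := T) 1 W (pfc E 1 P (Finsupp.single x 1)) (pfc E 1 Q (Finsupp.single x 1))
        rw [← M.alg.push 1 P hPp, ← M.alg.push 1 Q hQp, C_single] at e3
        exact e3
    · refine ⟨pfc E 1 a (Finsupp.single x 1), ?_, ?_⟩
      · have e2 : pfc E 1 g (ρ (pfc E 1 a (Finsupp.single x 1))) ∈ rat E 1 V := by
          rw [ρ_out a j hc ρ hρ, map_zero]
          exact zero_mem _
        exact e2
      · have e3 := M.alg.push 1 a hap (Finsupp.single x 1)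
        rw [C_single] at e3
        exact e3.symm
  obtain ⟨d, hd1, hd2⟩ := hD hspan
  have hd3 : T.C d = T.C cW := hd2
  have h8 : T.C (cW - d) = 0 := by rw [C_sub, hd3, sub_self]
  have h9 : cW - d ∈ rat E 1 W := by
    apply hW.num
    intro φ _
    rw [h8]
    exact map_zero φ
  have h10 := hF.fulton 1 g hg _ (hρ.rat _ h9)
  rw [map_sub, map_sub, hcW, hc1] at h10
  have h11 : pfc E 1 g (ρ d) ∈ rat E 1 V := hd1
  have h12 := add_mem h10 h11
  rw [sub_add_cancel] at h12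
  exact h12

/-- The conjecture for one-cycles. -/
theorem one (hC : CMP) (hB : BCC) {W V' V : Var k} (j : Mo V' W) (g : Mo V' V)
    (hW : Good T W) (hj : j.Op) (hg : g.Pr) (hgo : Onto g) : Q1at T 1 V :=
  ⟨inj_one' hT hF M hC hB j g ⟨hW.proper, hW.num⟩ hj hg hgo, (M.alg.iff 1 V).mp
    (alg_onto hT hF M 1 g hg hgo (alg_open hT hF M 0 j hj
      ((M.alg.iff 1 W).mpr ⟨hW.surj, hW.semi⟩)))⟩

/-- The conjecture for the other dimensions. -/
theorem other (hC : CMP) (hB : BCC) {W V' V : Var k} (j : Mo V' W) (g : Mo V' V)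
    (hW : Good T W) (hWT : T.Tate W) (hj : j.Op) (hg : g.Pr) (hgo : Onto g) (D i : ℕ)
    (hD : DimLE V D) (hi : i ≤ 1 ∨ D ≤ i + 1) : Q1at T i V := by
  rcases Nat.eq_zero_or_pos i with h0 | h0
  · subst h0
    exact ⟨inj_zero' hT hF M j g hW.proper hj hg hgo, hF.zero.surj V⟩
  · obtain ⟨i, rfl⟩ : ∃ i', i = i' + 1 := ⟨i - 1, by omega⟩
    rcases Nat.eq_zero_or_pos i with h1 | h1
    · subst h1
      exact one hT hF M hC hB j g hW hj hg hgo
    · refine ⟨?_, (M.alg.iff (i + 1) V).mp (alg_onto hT hF M (i + 1) g hg hgo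
        (alg_open hT hF M i j hj ((M.alg.iff (i + 1) W).mpr (hWT (i + 1)))))⟩
      apply hT.cyc.divisors
      intro v
      refine (hD v).trans ?_
      exact_mod_cast (by omega : D ≤ i + 1 + 1)

/-- The identity. -/
def ide (X : Var k) : Mo X X := ⟨𝟙 _, Category.id_comp _⟩

lemma ide_pr (X : Var k) : (ide X).Pr := by
  have h : IsProper (𝟙 X.X) := inferInstance
  exact h

lemma ide_onto (X : Var k) : Onto (ide X) := fun x => ⟨x, rfl⟩

theorem main (hC : CMP) (hB : BCC) : Main T := by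
  have hgood : ∀ (d : ℕ) (W : Var k), SP W (d + 1) → Q1at T 1 W → Q1at T d W → Good T W := by
    intro d W h1 h2 h3
    obtain ⟨B, hB⟩ := hF.duality W d h1
    let B' : T.H d (2 * d) W →ₗ[E] T.H 1 2 W →ₗ[E] E :=
      { toFun := B
        map_add' := hB.add
        map_smul' := hB.smul }
    exact M.dua hT d W B' ⟨hB.nondeg, hB.frob, hB.deg⟩ h1.2.1 h2 h3
  refine ⟨?_, ?_, ?_, ?_, ?_, hgood⟩
  · intro X V j h1 h2 h3 i
    have hg : Good T X := hgood 2 X h1 (h2 1) (h2 2)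
    have hD : DimLE V 3 := by
      intro v
      rw [← M.opn.dim j (Or.inl h3) v]
      exact M.opn.top X 3 h1.2.2 _
    exact other hT hF M hC hB j (ide V) hg (fun i => (h2 i).2) h3 (ide_pr hT hF M V)
      (ide_onto hT hF M V) 3 i hD (by omega)
  · intro d X U V j g h1 h2 h3 h4 h5 h6
    exact one hT hF M hC hB j g (hgood d X h1 h2 h3) h4 h5 h6
  · intro d X U V j g h1 h2 h3 h4 h5 D i h6 h7
    exact other hT hF M hC hB j g (hgood d X h1 (h2 1) (h2 d)) (fun i => (h2 i).2) h3 h4 h5 D i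
      h6 h7
  · intro W U V j g h1 h2 h3 h4
    exact inj_one' hT hF M hC hB j g h1 h2 h3 h4
  · intro W U V j g h1 h2 h3 h4
    exact one hT hF M hC hB j g h1 h2 h3 h4

theorem mainProducts (hC : CMP) (hB : BCC) (hS : Products T) : MainProducts T where
  onecycles n P U V j g h1 h2 h3 h4 := one hT hF M hC hB j g (hS.good n P h1) h2 h3 h4
  full n P U V j g h1 h2 h3 h4 h5 h6 i :=
    other hT hF M hC hB j g (hS.good n P h1) (hS.tate n P h1 h2) h3 h4 h5 3 i h6 (by omega)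

end Main

end ASM2_aux

end OCY
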