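import Pool.Agent.OCY.St
import Pool.Agent.Lib_helper55.Beil.Geom

/-!
# OCY, module PFF: the push-forward of cycles is functorial
-/

set_option autoImplicit false

open CategoryTheory AlgebraicGeometry

namespace OCY

open Pool.Agent.Lib_helper55.Beil (Var)
open OCB

namespace PFF_aux

theorem dim_le {k : Type} [Field k] {X Y : Var k} (g : X.X ⟶ Y.X) (comm : g ≫ Y.f = X.f)
    (x : X.X) : Y.dim (g x) ≤ X.dim x := by
  let : Algebra k (Y.X.residueField (g x)) := (Y.toResidue (g x)).toAlgebra
  let : Algebra k (X.X.residueField x) := (X.toResidue x).toAlgebra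
  let e : Y.X.residueField (g x) →ₐ[k] X.X.residueField x :=
    { (g.residueFieldMap x).hom with
      commutes' := fun r => by
        have := Pool.Agent.Lib_helper55.Beil.toResidue_map g comm x
        exact congrArg (fun (φ : k →+* _) => φ r) this }
  exact trdeg_le_of_injective e (g.residueFieldMap x).hom.injective

theorem di_le {k : Type} [Field k] {X Y : Var k} (f : Mo X Y) (x : Pt X) :
    di Y (im f x) ≤ di X x :=
  dim_le f.g f.comm x

theorem im_comp {k : Type} [Field k] {X Y Z : Var k} (f : Mo X Y) (g : Mo Y Z)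
    (h : Mo X Z) (hc : Co f g h) (x : Pt X) : im g (im f x) = im h x := by
  unfold Co at hc
  unfold im
  rw [← hc]
  rfl

theorem deg_comp {k : Type} [Field k] {X Y Z : Var k} (f : Mo X Y) (g : Mo Y Z)
    (h : Mo X Z) (hc : Co f g h) (x : Pt X) :
    deg h x = deg g (im f x) * deg f x := by
  obtain ⟨hg, h1⟩ := h
  unfold Co at hc
  simp only at hc
  subst hc
  unfold deg im
  have h3 := Scheme.residueFieldMap_comp f.g g.g x
  let : Algebra (Z.X.residueField (g.g (f.g x))) (Y.X.residueField (f.g x)) :=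
    (g.g.residueFieldMap (f.g x)).hom.toAlgebra
  let : Algebra (Y.X.residueField (f.g x)) (X.X.residueField x) :=
    (f.g.residueFieldMap x).hom.toAlgebra
  let : Algebra (Z.X.residueField (g.g (f.g x))) (X.X.residueField x) :=
    ((f.g ≫ g.g).residueFieldMap x).hom.toAlgebra
  have : IsScalarTower (Z.X.residueField (g.g (f.g x))) (Y.X.residueField (f.g x))
      (X.X.residueField x) := by
    refine IsScalarTower.of_algebraMap_eq' ?_
    have h4 := congrArg CommRingCat.Hom.hom h3
    exact h4
  exact (Module.finrank_mul_finrank (Z.X.residueField (g.g (f.g x)))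
    (Y.X.residueField (f.g x)) (X.X.residueField x)).symm

section

variable {k E : Type} [Field k] [Field E] {i : ℕ}

theorem pfc_single {X Y : Var k} (f : Mo X Y) (x : Ps i X) (e : E) :
    pfc E i f (Finsupp.single x e) = e • pfp E i f x := by
  unfold pfc
  rw [Finsupp.linearCombination_single]

theorem pfp_pos {X Y : Var k} (f : Mo X Y) (x : Ps i X) (y : Ps i Y) (h : im f x.1 = y.1) :
    pfp E i f x = Finsupp.single y (deg f x.1 : E) := by
  have h1 : di Y (im f x.1) = i := by rw [h]; exact y.2
  have h2 : (⟨im f x.1, h1⟩ : Ps i Y) = y := Subtype.ext h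
  unfold pfp
  rw [dif_pos h1]
  exact congrArg (fun z : Ps i Y => Finsupp.single z (deg f x.1 : E)) h2

theorem pfp_neg {X Y : Var k} (f : Mo X Y) (x : Ps i X) (h : di Y (im f x.1) ≠ i) :
    pfp E i f x = 0 := by
  unfold pfp
  rw [dif_neg h]

theorem pfp_comp {X Y Z : Var k} (f : Mo X Y) (g : Mo Y Z) (h : Mo X Z)
    (hc : Co f g h) (x : Ps i X) :
    pfc E i g (pfp E i f x) = pfp E i h x := by
  have hd := deg_comp f g h hc x.1
  have hx : im g (im f x.1) = im h x.1 := im_comp f g h hc x.1
  by_cases h1 : di Y (im f x.1) = i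
  · obtain ⟨y, hy⟩ : ∃ y : Ps i Y, im f x.1 = y.1 := ⟨⟨im f x.1, h1⟩, rfl⟩
    rw [pfp_pos f x y hy, pfc_single]
    by_cases h2 : di Z (im g y.1) = i
    · obtain ⟨z, hz⟩ : ∃ z : Ps i Z, im g y.1 = z.1 := ⟨⟨im g y.1, h2⟩, rfl⟩
      have h3 : im h x.1 = z.1 := by rw [← hx, hy, hz]
      rw [pfp_pos h x z h3, pfp_pos g y z hz, Finsupp.smul_single, smul_eq_mul, hd, hy,
        Nat.cast_mul, mul_comm]
    · have h3 : di Z (im h x.1) ≠ i := by rw [← hx, hy]; exact h2
      rw [pfp_neg h x h3, pfp_neg g y h2, smul_zero]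
  · rw [pfp_neg f x h1, map_zero]
    have h3 : di Z (im h x.1) ≠ i := by
      intro h4
      apply h1
      refine le_antisymm ((di_le f x.1).trans x.2.le) ?_
      have h5 : di Z (im g (im f x.1)) ≤ di Y (im f x.1) := di_le g _
      have h6 : di Z (im g (im f x.1)) = di Z (im h x.1) := congrArg (di Z) hx
      exact (h4.symm.trans h6.symm).le.trans h5
    rw [pfp_neg h x h3]

end

end PFF_aux

open PFF_aux in
/-- The push-forward of cycles is functorial. -/
theorem t_PFF : PFF := by
  intro k _ E _ i X Y Z f g h hc c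
  have h1 : (pfc E i g).comp (pfc E i f) = pfc E i h := by
    refine Finsupp.lhom_ext fun x e => ?_
    rw [LinearMap.comp_apply, pfc_single, pfc_single, map_smul, pfp_comp f g h hc x]
  exact LinearMap.congr_fun h1 c

end OCY
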