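import Pool.Agent.OCY.St2
import Pool.Agent.OCY.PFF

/-!
# OCY, module BCC: base change of the push-forward of cycles along open immersions
-/

set_option autoImplicit false

open CategoryTheory AlgebraicGeometry

namespace OCY

open Pool.Agent.Lib_helper55.Beil (Var)
open OCB

namespace BCC_aux

variable {k : Type} [Field k]

theorem deg_op {X Y : Var k} (f : Mo X Y) (h : f.Op) (x : Pt X) : deg f x = 1 := by
  have h0 : IsOpenImmersion f.g := h
  have hb := Pool.Agent.Lib_helper55.Beil.residueFieldMap_bijective f.g x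
  unfold deg Scheme.Hom.residueDegree
  let : Algebra (Y.X.residueField (f.g x)) (X.X.residueField x) :=
    (f.g.residueFieldMap x).hom.toAlgebra
  have e := LinearEquiv.ofBijective
    (Algebra.linearMap (Y.X.residueField (f.g x)) (X.X.residueField x)) hb
  exact e.finrank_eq.symm.trans (Module.finrank_self _)

theorem di_op {X Y : Var k} (f : Mo X Y) (h : f.Op) (x : Pt X) : di Y (im f x) = di X x := by
  have h1 : IsOpenImmersion f.g := h
  exact Pool.Agent.Lib_helper55.Beil.dim_map f.g f.comm x

theorem lift_pt {A B C D : Var k} (a : Mo A B) (b : Mo A C) (c : Mo B D) (d : Mo C D)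
    (h : Ca a b c d) (x : Pt B) (y : Pt C) (hxy : im c x = im d y) : ∃ z, im a z = x := by
  obtain ⟨z, hz1, -⟩ := Scheme.Pullback.exists_preimage_pullback (f := c.g) (g := d.g) x y hxy
  refine ⟨h.isoPullback.inv z, ?_⟩
  have h1 : h.isoPullback.inv ≫ a.g = Limits.pullback.fst c.g d.g := h.isoPullback_inv_fst
  rw [← hz1, ← h1]
  rfl

/-- The composition of two morphisms. -/
def comp {X Y Z : Var k} (f : Mo X Y) (g : Mo Y Z) : Mo X Z where
  g := f.g ≫ g.g
  comm := by rw [Category.assoc, g.comm, f.comm]

end BCC_aux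

open BCC_aux PFF_aux in
/-- Base change of the push-forward of cycles along open immersions. -/
theorem t_BCC : BCC := by
  intro k _ E _ i R R' V' W ι p P j hca hι hj ρ σ hρ hσ c
  have hw : ι.g ≫ P.g = p.g ≫ j.g := hca.w
  have key : ρ ∘ₗ pfc E i P = pfc E i p ∘ₗ σ := by
    refine Finsupp.lhom_ext fun x e => ?_
    have he : Finsupp.single x e = e • Finsupp.single x (1 : E) := by
      rw [Finsupp.smul_single, smul_eq_mul, mul_one]
    rw [he, map_smul, map_smul]
    refine congrArg (e • ·) ?_
    rw [LinearMap.comp_apply, LinearMap.comp_apply, pfc_single, one_smul]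
    have hs : ∀ (z : Ps i W) (d : E), ρ (Finsupp.single z d) = d • ρ (Finsupp.single z 1) := by
      intro z d
      rw [← map_smul, Finsupp.smul_single, smul_eq_mul, mul_one]
    by_cases hx : ∃ v, im ι v = x.1
    · obtain ⟨v, hv⟩ : ∃ v : Ps i R, im ι v.1 = x.1 := by
        obtain ⟨v, hv⟩ := hx
        refine ⟨⟨v, ?_⟩, hv⟩
        rw [← di_op ι hι v, hv]
        exact x.2
      have hdx : di R' (im ι v.1) = i := by
        rw [hv]
        exact x.2
      have e1 : σ (Finsupp.single x 1) = Finsupp.single v 1 :=
        (congrArg (fun z : Ps i R' => σ (Finsupp.single z 1))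
          (Subtype.ext hv : (⟨im ι v.1, hdx⟩ : Ps i R') = x)).symm.trans (hσ.pt v hdx)
      rw [e1, pfc_single, one_smul]
      have hpt : im P x.1 = im j (im p v.1) := by
        rw [← hv]
        exact (im_comp ι P (comp ι P) rfl v.1).trans
          (im_comp p j (comp ι P) hw.symm v.1).symm
      by_cases hd : di V' (im p v.1) = i
      · obtain ⟨y, hy⟩ : ∃ y : Ps i V', im p v.1 = y.1 := ⟨⟨im p v.1, hd⟩, rfl⟩
        have hdj : di W (im j y.1) = i := by
          rw [di_op j hj]
          exact y.2
        obtain ⟨z, hz⟩ : ∃ z : Ps i W, z = ⟨im j y.1, hdj⟩ := ⟨_, rfl⟩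
        have hz1 : im P x.1 = z.1 := by
          rw [hpt, hy, hz]
        have hρz : ρ (Finsupp.single z 1) = Finsupp.single y 1 := by
          rw [hz]
          exact hρ.pt y hdj
        rw [pfp_pos P x z hz1, pfp_pos p v y hy, hs, hρz, Finsupp.smul_single,
          smul_eq_mul, mul_one]
        have h3 := deg_comp ι P (comp ι P) rfl v.1
        have h4 := deg_comp p j (comp ι P) hw.symm v.1
        rw [deg_op ι hι, mul_one] at h3
        rw [deg_op j hj, one_mul] at h4
        have h5 : deg P x.1 = deg p v.1 := by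
          rw [← hv]
          exact h3.symm.trans h4
        rw [h5]
      · have hdj : di W (im P x.1) ≠ i := by
          rw [hpt, di_op j hj]
          exact hd
        rw [pfp_neg P x hdj, pfp_neg p v hd, map_zero]
    · rw [hσ.out x hx, map_zero]
      by_cases hd : di W (im P x.1) = i
      · obtain ⟨z, hz⟩ : ∃ z : Ps i W, im P x.1 = z.1 := ⟨⟨im P x.1, hd⟩, rfl⟩
        rw [pfp_pos P x z hz, hs]
        have h1 : ρ (Finsupp.single z 1) = 0 := by
          refine hρ.out z ?_
          rintro ⟨w, hw⟩
          exact hx (lift_pt ι p P j hca x.1 w (hz.trans hw.symm))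
        rw [h1, smul_zero]
      · rw [pfp_neg P x hd, map_zero]
  exact congrArg (fun f => f c) key

end OCY
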