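import Pool.Agent.OCY.St2

/-!
# OCY, module CMP: compactification of a fibre product
-/

set_option autoImplicit false

open CategoryTheory AlgebraicGeometry Limits

namespace OCY

open Pool.Agent.Lib_helper55.Beil (Var)
open OCB

namespace CMP_aux

/-- A dense open subscheme which is proper over the open subscheme `V'` of `W` is its inverse
image. -/
theorem key {R R' W V' : Scheme.{0}} (ι : R ⟶ R') (P : R' ⟶ W) (j : V' ⟶ W) (p : R ⟶ V')
    [IsOpenImmersion ι] [IsDominant ι] [IsOpenImmersion j] [IsProper p] [IsSeparated P]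
    (h : ι ≫ P = p ≫ j) : IsPullback ι p P j := by
  have hu1 : pullback.lift ι p h ≫ pullback.fst P j = ι := pullback.lift_fst _ _ _
  have hu2 : pullback.lift ι p h ≫ pullback.snd P j = p := pullback.lift_snd _ _ _
  obtain ⟨u, hu⟩ : ∃ u : R ⟶ pullback P j, u = pullback.lift ι p h := ⟨_, rfl⟩
  rw [← hu] at hu1 hu2
  have h1 : IsProper (u ≫ pullback.snd P j) := by rw [hu2]; infer_instance
  have h2 : IsProper u := IsProper.of_comp u (pullback.snd P j)
  have h3 : IsOpenImmersion (u ≫ pullback.fst P j) := by rw [hu1]; infer_instance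
  have h4 : IsOpenImmersion u := IsOpenImmersion.of_comp u (pullback.fst P j)
  have h5 : IsClosed (Set.range u) := u.isClosedMap.isClosed_range
  have h6 : Dense (Set.range u) := by
    have h7 : Dense (Set.range ι) := IsDominant.denseRange
    have h8 := h7.preimage (pullback.fst P j).isOpenEmbedding.isOpenMap
    have h9 : (pullback.fst P j) ⁻¹' (Set.range ι) = Set.range u := by
      ext y
      constructor
      · rintro ⟨r, hr⟩
        refine ⟨r, (pullback.fst P j).isOpenEmbedding.injective ?_⟩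
        rw [← hr, ← hu1]
        rfl
      · rintro ⟨r, rfl⟩
        refine ⟨r, ?_⟩
        rw [← hu1]
        rfl
    rw [h9] at h8
    exact h8
  have h10 : Set.range u = Set.univ := by
    rw [← h5.closure_eq]
    exact h6.closure_eq
  have h11 : IsIso u :=
    isIso_of_isOpenImmersion_of_opensRange_eq_top u (TopologicalSpace.Opens.ext h10)
  exact IsPullback.of_iso_pullback ⟨h⟩ (asIso u) hu1 hu2

/-- The morphism from the fibre product to the product is an immersion. -/
theorem imm {S W V' V R : Scheme.{0}} (fW : W ⟶ S) (fV : V ⟶ S) (j : V' ⟶ W) (g : V' ⟶ V)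
    (p q : R ⟶ V') [IsOpenImmersion j] (hS : g ≫ fV = j ≫ fW) (hR : IsPullback p q g g)
    (hc : (p ≫ j) ≫ fW = (q ≫ j) ≫ fW) : IsImmersion (pullback.lift (p ≫ j) (q ≫ j) hc) := by
  have e1 : (g ≫ fV) ≫ 𝟙 S = j ≫ fW := by rw [Category.comp_id]; exact hS
  have e2 : pullback.lift (p ≫ j) (q ≫ j) hc = hR.isoPullback.hom ≫ pullback.mapDesc g g fV ≫
      pullback.map (g ≫ fV) (g ≫ fV) fW fW j j (𝟙 S) e1 e1 := by
    have m1 : pullback.map (g ≫ fV) (g ≫ fV) fW fW j j (𝟙 S) e1 e1 ≫ pullback.fst fW fW =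
        pullback.fst (g ≫ fV) (g ≫ fV) ≫ j := pullback.lift_fst _ _ _
    have m2 : pullback.map (g ≫ fV) (g ≫ fV) fW fW j j (𝟙 S) e1 e1 ≫ pullback.snd fW fW =
        pullback.snd (g ≫ fV) (g ≫ fV) ≫ j := pullback.lift_snd _ _ _
    have d1 : pullback.mapDesc g g fV ≫ pullback.fst (g ≫ fV) (g ≫ fV) =
        pullback.fst g g ≫ 𝟙 V' := pullback.lift_fst _ _ _
    have d2 : pullback.mapDesc g g fV ≫ pullback.snd (g ≫ fV) (g ≫ fV) =
        pullback.snd g g ≫ 𝟙 V' := pullback.lift_snd _ _ _
    apply pullback.hom_ext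
    · rw [pullback.lift_fst, Category.assoc, Category.assoc, m1, reassoc_of% d1,
        ← Category.assoc, hR.isoPullback_hom_fst]
    · rw [pullback.lift_snd, Category.assoc, Category.assoc, m2, reassoc_of% d2,
        ← Category.assoc, hR.isoPullback_hom_snd]
  rw [e2]
  infer_instance

end CMP_aux

open CMP_aux in
theorem t_CMP : CMP := by
  intro k _ W V' V R j g p q hW hj hg hR
  have hW' : IsProper W.f := hW
  have hj' : IsOpenImmersion j.g := hj
  have hg' : IsProper g.g := hg
  have hR' : IsPullback p.g q.g g.g g.g := hR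
  have hp : IsProper p.g := MorphismProperty.of_isPullback (P := @IsProper) hR'.flip hg'
  have hq : IsProper q.g := MorphismProperty.of_isPullback (P := @IsProper) hR' hg'
  have hc : (p.g ≫ j.g) ≫ W.f = (q.g ≫ j.g) ≫ W.f := by
    rw [Category.assoc, Category.assoc, j.comm, p.comm, q.comm]
  obtain ⟨e, he⟩ : ∃ e : R.X ⟶ pullback W.f W.f, e = pullback.lift (p.g ≫ j.g) (q.g ≫ j.g) hc :=
    ⟨_, rfl⟩
  have he1 : e ≫ pullback.fst W.f W.f = p.g ≫ j.g := by rw [he]; exact pullback.lift_fst _ _ _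
  have he2 : e ≫ pullback.snd W.f W.f = q.g ≫ j.g := by rw [he]; exact pullback.lift_snd _ _ _
  have hS : g.g ≫ V.f = j.g ≫ W.f := by rw [g.comm, j.comm]
  have h1 : IsImmersion e := by
    rw [he]
    exact imm W.f V.f j.g g.g p.g q.g hS hR' hc
  have heR : e ≫ pullback.fst W.f W.f ≫ W.f = R.f := by
    rw [← Category.assoc, he1, Category.assoc, j.comm, p.comm]
  have h2 : QuasiCompact e := by
    have : QuasiCompact (e ≫ pullback.fst W.f W.f ≫ W.f) := by rw [heR]; infer_instance
    exact QuasiCompact.of_comp e (pullback.fst W.f W.f ≫ W.f)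
  have h3 : IsProper (e.imageι ≫ pullback.fst W.f W.f ≫ W.f) := inferInstance
  refine ⟨⟨e.image, e.imageι ≫ pullback.fst W.f W.f ≫ W.f, inferInstance, inferInstance,
    inferInstance⟩, ⟨e.toImage, ?_⟩, ⟨e.imageι ≫ pullback.fst W.f W.f, ?_⟩,
    ⟨e.imageι ≫ pullback.snd W.f W.f, ?_⟩, h3, ?_, ?_, ?_⟩
  · change e.toImage ≫ e.imageι ≫ pullback.fst W.f W.f ≫ W.f = R.f
    rw [Scheme.Hom.toImage_imageι_assoc]
    exact heR
  · change (e.imageι ≫ pullback.fst W.f W.f) ≫ W.f = e.imageι ≫ pullback.fst W.f W.f ≫ W.f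
    rw [Category.assoc]
  · change (e.imageι ≫ pullback.snd W.f W.f) ≫ W.f = e.imageι ≫ pullback.fst W.f W.f ≫ W.f
    rw [Category.assoc, pullback.condition]
  · change IsOpenImmersion e.toImage
    infer_instance
  · refine key e.toImage (e.imageι ≫ pullback.fst W.f W.f) j.g p.g ?_
    rw [Scheme.Hom.toImage_imageι_assoc]
    exact he1
  · refine key e.toImage (e.imageι ≫ pullback.snd W.f W.f) j.g q.g ?_
    rw [Scheme.Hom.toImage_imageι_assoc]
    exact he2

end OCY
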