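import Pool.Agent.OCY.St

/-!
# OCY: under Poincare duality the conjecture for one-cycles and for divisors implies that `W` is good
-/

set_option autoImplicit false

open CategoryTheory AlgebraicGeometry

namespace OCY

open Pool.Agent.Lib_helper55.Beil (Var)
open OCB

universe v

namespace DUA_aux

/-- If `(F - 1)^2 n = 0` implies `(F - 1) n = 0` then the space is the sum of the kernel and the range. -/
lemma split {E V : Type*} [Field E] [AddCommGroup V] [Module E V] [Module.Finite E V]
    (F : V →ₗ[E] V) (h : ∀ n : V, F (F n - n) = F n - n → F n = n) (n : V) :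
    ∃ a b : V, F a = a ∧ n = a + (F b - b) := by
  set g : V →ₗ[E] V := F - LinearMap.id with hg
  have hga : ∀ x, g x = F x - x := fun x => rfl
  have hdis : Disjoint (LinearMap.ker g) (LinearMap.range g) := by
    rw [Submodule.disjoint_def]
    rintro x hx ⟨y, rfl⟩
    rw [LinearMap.mem_ker, hga, hga] at hx
    have h1 := h y (sub_eq_zero.1 hx)
    rw [hga, h1, sub_self]
  have htop : LinearMap.ker g ⊔ LinearMap.range g = ⊤ := by
    refine Submodule.eq_top_of_disjoint _ _ ?_ hdis
    rw [add_comm]
    exact (LinearMap.finrank_range_add_finrank_ker g).ge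
  have hn : n ∈ LinearMap.ker g ⊔ LinearMap.range g := by
    rw [htop]
    trivial
  obtain ⟨a, ha, c, ⟨b, rfl⟩, hac⟩ := Submodule.mem_sup.1 hn
  refine ⟨a, b, ?_, ?_⟩
  · rw [LinearMap.mem_ker, hga] at ha
    exact sub_eq_zero.1 ha
  · rw [← hac, hga]

end DUA_aux

open DUA_aux in
theorem t_DUA {k : Type} [Field k] {E : Type} [Field E] (T : Th.{v} k E) : DUA T := by
  intro hP d W B hB hW h1 hd
  obtain ⟨hnd, hinv, hdeg⟩ := hB
  refine ⟨hW, h1.2.1, h1.2.2, fun c hc => h1.1 c ?_⟩
  -- Frobenius fixes the classes of cycles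
  have hF : T.F (T.C c) = T.C c := by
    have h2 : (T.fr 1 (2 * 1) W) ∘ₗ Finsupp.linearCombination E (T.cl 1 W) =
        Finsupp.linearCombination E (T.cl 1 W) := by
      refine Finsupp.lhom_ext' fun x => LinearMap.ext_ring ?_
      simp only [LinearMap.comp_apply, Finsupp.lsingle_apply, Finsupp.linearCombination_single,
        one_smul]
      exact hP.frob.cls 1 W x
    exact LinearMap.congr_fun h2 c
  refine hnd (T.C c) fun n => ?_
  have := T.fin d (2 * d) W
  obtain ⟨a, b, ha, hab⟩ := split (T.fr d (2 * d) W) hd.2.2 n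
  have e1 : B a (T.C c) = 0 := by
    obtain ⟨z, hz⟩ := hd.2.1 a ha
    have h3 : ∀ z : Ps d W →₀ E, B (T.C z) (T.C c) = 0 := by
      intro z
      unfold Th.C
      rw [Finsupp.linearCombination_apply, Finsupp.sum, map_sum, LinearMap.sum_apply]
      refine Finset.sum_eq_zero fun x _ => ?_
      rw [map_smul, LinearMap.smul_apply]
      have h4 : B (T.cl d W x) (T.C c) = 0 := hc _ (hdeg x)
      unfold Th.C at h4
      rw [h4, smul_zero]
    rw [← hz]
    exact h3 z
  have e2 : B (T.fr d (2 * d) W b) (T.C c) = B b (T.C c) := by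
    have h5 := hinv b (T.C c)
    rw [hF] at h5
    exact h5
  rw [hab, map_add, map_sub, LinearMap.add_apply, LinearMap.sub_apply, e1, e2, sub_self, add_zero]

end OCY
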