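import Pool.Agent.OCY.St

/-!
# OCY, module FIB: fibre products and proper morphisms
-/

set_option autoImplicit false

open CategoryTheory AlgebraicGeometry Limits

namespace OCY

open Pool.Agent.Lib_helper55.Beil (Var)
open OCB

theorem t_FIB (k : Type) [Field k] : FIB k where
  ex := by
    intro X Y S f g
    have hs : IsSeparated (g.g ≫ S.f) := by rw [g.comm]; infer_instance
    have hl : LocallyOfFiniteType (g.g ≫ S.f) := by rw [g.comm]; infer_instance
    have hc : QuasiCompact (g.g ≫ S.f) := by rw [g.comm]; infer_instance
    have h1 : IsSeparated g.g := IsSeparated.of_comp g.g S.f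
    have h2 : LocallyOfFiniteType g.g := locallyOfFiniteType_of_comp g.g S.f
    have h3 : QuasiCompact g.g := QuasiCompact.of_comp g.g S.f
    refine ⟨⟨pullback f.g g.g, pullback.fst f.g g.g ≫ X.f, inferInstance, inferInstance,
      inferInstance⟩, ⟨pullback.fst f.g g.g, rfl⟩, ⟨pullback.snd f.g g.g, ?_⟩,
      IsPullback.of_hasPullback f.g g.g⟩
    change pullback.snd f.g g.g ≫ Y.f = pullback.fst f.g g.g ≫ X.f
    rw [← f.comm, ← g.comm, pullback.condition_assoc]
  pr := fun p q f g h hf => MorphismProperty.of_isPullback (P := @IsProper) h hf
  pr' := fun p q f g h hg => MorphismProperty.of_isPullback (P := @IsProper) h.flip hg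
  onto := by
    intro P X Y S p q f g h hf
    have h1 : Surjective f.g := ⟨hf⟩
    have h2 : Surjective q.g := MorphismProperty.of_isPullback (P := @Surjective) h h1
    exact h2.surj
  cl := fun p q f g h hg => MorphismProperty.of_isPullback (P := @IsClosedImmersion) h.flip hg
  of := by
    intro X Y f hX
    have h : IsProper (f.g ≫ Y.f) := by rw [f.comm]; exact hX
    exact IsProper.of_comp f.g Y.f
  trans := by
    intro X Y f hf hY
    have h1 : IsProper f.g := hf
    have h2 : IsProper Y.f := hY
    have h : IsProper (f.g ≫ Y.f) := inferInstance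
    rw [f.comm] at h
    exact h
  closed := by
    intro X Y f hf
    have h1 : IsClosedImmersion f.g := hf
    have h : IsProper f.g := inferInstance
    exact h

end OCY
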