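import Pool.Agent.OCY.Defs

/-!
# OCY: statements of the modules
-/

set_option autoImplicit false

open CategoryTheory AlgebraicGeometry

namespace OCY

open Pool.Agent.Lib_helper55.Beil (Var)
open OCB

universe v

/-- Double annihilators with an integral structure.  Proof: suppose `x` is not in the span of `S`; there is
a linear form `ψ` on `C` which vanishes on `S` and not at `x`; the restrictions of `Λ` span the dual of `C`
(no nonzero element of `C` is killed by all of them), thus `ψ = ∑ e_j φ_j` on `C`; write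
`e_j = ∑_m q_jm b_m` with `b_m` linearly independent over `ℚ`; for `s` in `S` the numbers `φ_j s` are
integers and `0 = ψ s = ∑_m b_m (∑_j q_jm φ_j s)`, thus `∑_j q_jm φ_j` vanishes on `S` for all `m`; a
multiple with integral coefficients is in `Λ` and vanishes at `x`; thus `ψ x = 0`. -/
def LIN : Prop :=
  ∀ (E : Type) [Field E] [CharZero E] (A : Type v) [AddCommGroup A] [Module E A]
    [FiniteDimensional E A] (Λ : AddSubgroup (A →ₗ[E] E)) (S : Set A) (C : Submodule E A),
    (∀ φ ∈ Λ, ∀ s ∈ S, ∃ n : ℤ, φ s = n) → (∀ y ∈ C, (∀ φ ∈ Λ, φ y = 0) → y = 0) → S ⊆ C →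
    ∀ x ∈ C, (∀ φ ∈ Λ, (∀ s ∈ S, φ s = 0) → φ x = 0) → x ∈ Submodule.span E S

/-- Fibre products; base change of proper morphisms and of surjective morphisms; a morphism from a proper
variety is proper; a closed subvariety of, or a variety proper over, a proper variety is proper. -/
structure FIB (k : Type) [Field k] : Prop where
  ex : ∀ {X Y S : Var k} (f : Mo X S) (g : Mo Y S), ∃ (P : Var k) (p : Mo P X) (q : Mo P Y), Ca p q f g
  pr : ∀ {P X Y S : Var k} (p : Mo P X) (q : Mo P Y) (f : Mo X S) (g : Mo Y S), Ca p q f g →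
    f.Pr → q.Pr
  pr' : ∀ {P X Y S : Var k} (p : Mo P X) (q : Mo P Y) (f : Mo X S) (g : Mo Y S), Ca p q f g →
    g.Pr → p.Pr
  onto : ∀ {P X Y S : Var k} (p : Mo P X) (q : Mo P Y) (f : Mo X S) (g : Mo Y S), Ca p q f g →
    Onto f → Onto q
  cl : ∀ {P X Y S : Var k} (p : Mo P X) (q : Mo P Y) (f : Mo X S) (g : Mo Y S), Ca p q f g →
    g.Cl → p.Cl
  of : ∀ {X Y : Var k} (f : Mo X Y), Proper X → f.Pr
  trans : ∀ {X Y : Var k} (f : Mo X Y), f.Pr → Proper Y → Proper X
  closed : ∀ {X Y : Var k} (f : Mo X Y), f.Cl → f.Pr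

/-- An `i`-dimensional point is the image of an `i`-dimensional point under a surjective morphism, with a
finite extension of the residue fields (a closed point of the fibre). -/
def PTS : Prop :=
  ∀ (k : Type) [Field k] {X Y : Var k} (f : Mo X Y), Onto f → ∀ (i : ℕ) (y : Ps i Y),
    ∃ x : Ps i X, im f x.1 = y.1 ∧ deg f x.1 ≠ 0

/-- The push-forward of cycles is functorial (the degree is multiplicative; the dimension of the image of a
point is at most the dimension of the point). -/
def PFF : Prop :=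
  ∀ (k : Type) [Field k] (E : Type) [Field E] (i : ℕ) {X Y Z : Var k} (f : Mo X Y) (g : Mo Y Z)
    (h : Mo X Z), Co f g h → ∀ c : Ps i X →₀ E, pfc E i g (pfc E i f c) = pfc E i h c

/-- The restriction `ρ` of cycles to an open subvariety. -/
structure Restr {k : Type} [Field k] (E : Type) [Field E] (i : ℕ) {V X : Var k} (j : Mo V X)
    (ρ : (Ps i X →₀ E) →ₗ[E] (Ps i V →₀ E)) : Prop where
  rat : ∀ c ∈ rat E i X, ρ c ∈ OCB.rat E i V
  out : ∀ x : Ps i X, (¬ ∃ v, im j v = x.1) → ρ (Finsupp.single x 1) = 0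
  pt : ∀ (v : Ps i V) (h : di X (im j v.1) = i), ρ (Finsupp.single ⟨im j v.1, h⟩ 1) = Finsupp.single v 1

/-- Open subvarieties (see `Lib_helper66/OneP/Loc.lean` for the restriction of cycles and
`Lib_helper55/Beil/Geom.lean` for the complement): restriction of cycles, the dimension of points, the
complement. -/
structure OPN (k : Type) [Field k] (E : Type) [Field E] : Prop where
  restr : ∀ (i : ℕ) {V X : Var k} (j : Mo V X), j.Op → ∃ ρ, Restr E i j ρ
  dim : ∀ {V X : Var k} (j : Mo V X), j.Op ∨ j.Cl → ∀ v : Pt V, di X (im j v) = di V v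
  compl : ∀ {V X : Var k} (j : Mo V X), j.Op → ∃ (Z : Var k) (a : Mo Z X), Comp a j
  top : ∀ (X : Var k) (d : ℕ), IDim X d → DimLE X d

section Theory

variable {k : Type} [Field k] {E : Type} [Field E]

/-- Poincare duality for a bilinear pairing. -/
def DualL (T : Th.{v} k E) (W : Var k) (d : ℕ)
    (B : T.H d (2 * d) W →ₗ[E] T.H 1 2 W →ₗ[E] E) : Prop :=
  (∀ m : T.H 1 2 W, (∀ n, B n m = 0) → m = 0) ∧
  (∀ (n : T.H d (2 * d) W) (m : T.H 1 2 W), B (T.F n) (T.F m) = B n m) ∧
  ∀ x : Ps d W, IsDeg T (B (T.cl d W x))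

/-- Under Poincare duality, the conjecture for one-cycles and for divisors implies that `W` is good.
Proof: let `c` be a one-cycle of degree zero on all line bundles, `m = C c`, so `F m = m`.  For `n` in the
generalised eigenspace of Frobenius (spanned by the classes of divisors, since `d`-cycles satisfy `Surj`
and `Semi`) `B n m = 0`.  For `n = (F - 1) n'` also `B n m = B (F n') (F m) - B n' m = 0`.  The
generalised eigenspace and the image of a power of `F - 1` span everything, thus `m = 0`, and `Inj`. -/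
def DUA (T : Th.{v} k E) : Prop :=
  T.Pub → ∀ (d : ℕ) (W : Var k) (B : T.H d (2 * d) W →ₗ[E] T.H 1 2 W →ₗ[E] E),
    DualL T W d B → Proper W → Q1at T 1 W → Q1at T d W → Good T W

/-- The generalised eigenspace of Frobenius for the eigenvalue one is spanned by classes of cycles. -/
def Alg (T : Th.{v} k E) (i : ℕ) (X : Var k) : Prop :=
  ∀ m ∈ Module.End.maxGenEigenspace (T.fr i (2 * i) X) 1, ∃ c : Ps i X →₀ E, T.C c = m

/-- Classes of cycles and generalised eigenspaces. -/
structure ALG (T : Th.{v} k E) : Prop where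
  iff : ∀ (i : ℕ) (X : Var k), Alg T i X ↔ T.Surj i X ∧ T.Semi i X
  mem : ∀ (i : ℕ) (X : Var k) (c : Ps i X →₀ E),
    T.C c ∈ Module.End.maxGenEigenspace (T.fr i (2 * i) X) 1
  push : ∀ (i : ℕ) {X Y : Var k} (f : Mo X Y), f.Pr → ∀ c : Ps i X →₀ E,
    T.P f (T.C c) = T.C (pfc E i f c)
  res : ∀ (i : ℕ) {Z V X : Var k} (a : Mo Z X) (j : Mo V X), Comp a j → ∀ ρ, Restr E i j ρ →
    ∀ c : Ps i X →₀ E, T.R j (T.C c) = T.C (ρ c)
  /-- the image of a class in the generalised eigenspace -/
  lift : ∀ (i : ℕ) {X Y : Var k} (f : Mo X Y), f.Pr → ∀ m : T.H i (2 * i) X,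
    T.P f m ∈ Module.End.maxGenEigenspace (T.fr i (2 * i) Y) 1 →
      ∃ m' ∈ Module.End.maxGenEigenspace (T.fr i (2 * i) X) 1, T.P f m' = T.P f m
  /-- restriction to an open subvariety is onto for the generalised eigenspaces (weights) -/
  opn : ∀ (i : ℕ) {Z V X : Var k} (a : Mo Z X) (j : Mo V X), Comp a j →
    ∀ u ∈ Module.End.maxGenEigenspace (T.fr (i + 1) (2 * (i + 1)) V) 1,
      ∃ m ∈ Module.End.maxGenEigenspace (T.fr (i + 1) (2 * (i + 1)) X) 1, T.R j m = u

/-- The classes and the push-forward. -/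
def ALGS (T : Th.{v} k E) : Prop := T.Pub → ALG T

end Theory

end OCY
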