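import Mathlib
import Pool.Agent.OCY.St

/-!
# OCY, module LIN: double annihilators with an integral structure
-/

set_option autoImplicit false

open CategoryTheory AlgebraicGeometry

namespace OCY

open Pool.Agent.Lib_helper55.Beil (Var)
open OCB

universe v

namespace LIN_aux

/-- the linear form on `C` is the restriction of an element of the span of `Λ` -/
lemma exists_span {E : Type} [Field E] {A : Type v} [AddCommGroup A] [Module E A]
    [FiniteDimensional E A] (Λ : AddSubgroup (A →ₗ[E] E)) (C : Submodule E A)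
    (hC : ∀ y ∈ C, (∀ φ ∈ Λ, φ y = 0) → y = 0) (ψ : A →ₗ[E] E) :
    ∃ ψ' ∈ Submodule.span E (Λ : Set (A →ₗ[E] E)), ∀ y ∈ C, ψ' y = ψ y := by
  obtain ⟨r, hr⟩ : ∃ r : Module.Dual E A →ₗ[E] Module.Dual E C, r = C.subtype.dualMap :=
    ⟨_, rfl⟩
  obtain ⟨W, hW⟩ : ∃ W : Submodule E (Module.Dual E C),
    W = (Submodule.span E (Λ : Set (Module.Dual E A))).map r := ⟨_, rfl⟩
  have h1 : W.dualCoannihilator = ⊥ := by
    rw [eq_bot_iff]
    intro y hy
    rw [Submodule.mem_dualCoannihilator] at hy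
    have h2 : (y : A) = 0 := by
      refine hC y y.2 fun φ hφ => ?_
      have h3 := hy (r φ) (by
        rw [hW]
        exact Submodule.mem_map_of_mem (Submodule.subset_span hφ))
      rw [hr] at h3
      exact h3
    rw [Submodule.mem_bot]
    exact Subtype.ext h2
  have h2 : W = ⊤ := by
    have h3 := Subspace.dualCoannihilator_dualAnnihilator_eq (W := W)
    rw [h1, Submodule.dualAnnihilator_bot] at h3
    exact h3.symm
  have h3 : r ψ ∈ W := by rw [h2]; trivial
  rw [hW, Submodule.mem_map] at h3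
  obtain ⟨ψ', h4, h5⟩ := h3
  refine ⟨ψ', h4, fun y hy => ?_⟩
  have h6 := LinearMap.congr_fun h5 ⟨y, hy⟩
  rw [hr] at h6
  exact h6

/-- rational relations -/
lemma rat_rel {E : Type} [Field E] [CharZero E] {A : Type v} [AddCommGroup A] [Module E A]
    (Λ : AddSubgroup (A →ₗ[E] E)) (S : Set A)
    (x : A) (hx : ∀ φ ∈ Λ, (∀ s ∈ S, φ s = 0) → φ x = 0)
    (F : Finset (A →ₗ[E] E)) (hF : ∀ φ ∈ F, φ ∈ Λ) (q : (A →ₗ[E] E) → ℚ)
    (hq : ∀ s ∈ S, ∑ φ ∈ F, (q φ : E) * φ s = 0) : ∑ φ ∈ F, (q φ : E) * φ x = 0 := by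
  obtain ⟨N, hN⟩ := IsLocalization.exist_integer_multiples (nonZeroDivisors ℤ) F q
  have hN0 : ((N : ℤ) : E) ≠ 0 := by
    exact_mod_cast nonZeroDivisors.coe_ne_zero N
  have h1 : ∀ φ : A →ₗ[E] E, ∃ z : ℤ, φ ∈ F → ((z : ℤ) : E) = ((N : ℤ) : E) * (q φ : E) := by
    intro φ
    by_cases h : φ ∈ F
    · obtain ⟨z, hz⟩ := hN φ h
      refine ⟨z, fun _ => ?_⟩
      have h2 : (z : ℚ) = ((N : ℤ) : ℚ) * q φ := by
        have h3 : algebraMap ℤ ℚ z = (z : ℚ) := rfl
        rw [← h3, hz, zsmul_eq_mul]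
      have h4 : ((z : ℚ) : E) = ((((N : ℤ) : ℚ) * q φ : ℚ) : E) := by rw [h2]
      push_cast at h4
      exact h4
    · exact ⟨0, fun h' => (h h').elim⟩
  choose z hz using h1
  have hev : ∀ y : A, (∑ φ ∈ F, z φ • φ) y = ((N : ℤ) : E) * ∑ φ ∈ F, (q φ : E) * φ y := by
    intro y
    rw [LinearMap.sum_apply, Finset.mul_sum]
    refine Finset.sum_congr rfl fun φ hφ => ?_
    rw [LinearMap.smul_apply, zsmul_eq_mul, hz φ hφ, mul_assoc]
  have h2 := hx (∑ φ ∈ F, z φ • φ) (sum_mem fun φ hφ => Λ.zsmul_mem (hF φ hφ) _) fun s hs => by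
    rw [hev, hq s hs, mul_zero]
  rw [hev] at h2
  exact (mul_eq_zero.1 h2).resolve_left hN0

end LIN_aux

open LIN_aux in
/-- **LIN.** -/
theorem t_LIN : LIN.{v} := by
  intro E _ _ A _ _ _ Λ S C hint hC hSC x hxC hx
  by_contra hxS
  obtain ⟨ψ, hψx, hψS⟩ := Submodule.exists_le_ker_of_notMem hxS
  obtain ⟨ψ', hψ', hag⟩ := exists_span Λ C hC ψ
  obtain ⟨c, hc1, hc2⟩ := Submodule.mem_span_set.1 hψ'
  have hev : ∀ y : A, ψ' y = ∑ φ ∈ c.support, c φ * φ y := by
    intro y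
    rw [← hc2, Finsupp.sum, LinearMap.sum_apply]
    rfl
  obtain ⟨b⟩ : Nonempty (Module.Basis (Module.Free.ChooseBasisIndex ℚ E) ℚ E) :=
    ⟨Module.Free.chooseBasis ℚ E⟩
  -- the coordinates of the coefficients
  have hS : ∀ s ∈ S, ∀ m, ∑ φ ∈ c.support, ((b.repr (c φ) m : ℚ) : E) * φ s = 0 := by
    intro s hs m
    have h1 : ∀ φ : A →ₗ[E] E, ∃ n : ℤ, φ ∈ c.support → φ s = n := by
      intro φ
      by_cases h : φ ∈ c.support
      · obtain ⟨n, hn⟩ := hint φ (hc1 h) s hs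
        exact ⟨n, fun _ => hn⟩
      · exact ⟨0, fun h' => (h h').elim⟩
    choose n hn using h1
    have h2 : ∑ φ ∈ c.support, (n φ : ℚ) • c φ = 0 := by
      have h3 : ψ' s = 0 := by
        rw [hag s (hSC hs)]
        exact hψS (Submodule.subset_span hs)
      rw [hev] at h3
      rw [← h3]
      refine Finset.sum_congr rfl fun φ hφ => ?_
      rw [hn φ hφ, Rat.smul_def, Rat.cast_intCast, mul_comm]
    have h3 : ∑ φ ∈ c.support, (n φ : ℚ) * b.repr (c φ) m = 0 := by
      have h4 := congrArg (fun e => b.repr e m) h2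
      simp only [map_sum, map_smul, map_zero, Finsupp.coe_zero, Pi.zero_apply,
        Finsupp.finsetSum_apply, Finsupp.smul_apply, smul_eq_mul] at h4
      exact h4
    have h4 : ((∑ φ ∈ c.support, (n φ : ℚ) * b.repr (c φ) m : ℚ) : E) = 0 := by
      rw [h3, Rat.cast_zero]
    rw [Rat.cast_sum] at h4
    rw [← h4]
    refine Finset.sum_congr rfl fun φ hφ => ?_
    rw [hn φ hφ, Rat.cast_mul, Rat.cast_intCast, mul_comm]
  have hX : ∀ m, ∑ φ ∈ c.support, ((b.repr (c φ) m : ℚ) : E) * φ x = 0 := fun m =>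
    rat_rel Λ S x hx c.support (fun φ hφ => hc1 hφ) (fun φ => b.repr (c φ) m)
      fun s hs => hS s hs m
  -- the value at `x`
  apply hψx
  rw [← hag x hxC, hev]
  classical
  obtain ⟨T, hT⟩ : ∃ T, T = c.support.biUnion fun φ => (b.repr (c φ)).support := ⟨_, rfl⟩
  have h5 : ∀ φ ∈ c.support, c φ = ∑ m ∈ T, ((b.repr (c φ) m : ℚ) : E) * b m := by
    intro φ hφ
    have h6 := b.linearCombination_repr (c φ)
    rw [Finsupp.linearCombination_apply, Finsupp.sum_of_support_subset (s := T)] at h6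
    · conv_lhs => rw [← h6]
      refine Finset.sum_congr rfl fun m _ => ?_
      rw [Rat.smul_def]
    · rw [hT]
      exact Finset.subset_biUnion_of_mem (fun φ => (b.repr (c φ)).support) hφ
    · intro m _
      rw [zero_smul]
  calc ∑ φ ∈ c.support, c φ * φ x
      = ∑ φ ∈ c.support, ∑ m ∈ T, b m * (((b.repr (c φ) m : ℚ) : E) * φ x) := by
        refine Finset.sum_congr rfl fun φ hφ => ?_
        conv_lhs => rw [h5 φ hφ]
        rw [Finset.sum_mul]
        refine Finset.sum_congr rfl fun m _ => ?_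
        ring
    _ = ∑ m ∈ T, b m * ∑ φ ∈ c.support, ((b.repr (c φ) m : ℚ) : E) * φ x := by
        rw [Finset.sum_comm]
        refine Finset.sum_congr rfl fun m _ => ?_
        rw [Finset.mul_sum]
    _ = 0 := by
        refine Finset.sum_eq_zero fun m _ => ?_
        rw [hX m, mul_zero]

end OCY
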