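import Pool.Agent.OCY.St
import Pool.Agent.Lib_helper55.Beil.Geom
import Pool.Agent.Lib_helper66.OneP.Loc

/-!
# OCY: open subvarieties (restriction of cycles, dimension of points, complement)
-/

set_option autoImplicit false

open CategoryTheory AlgebraicGeometry TopologicalSpace

namespace OCY

open Pool.Agent.Lib_helper55.Beil (Var ClosedIn OpenIn)
open OCB

namespace OPN_aux

variable {k : Type} [Field k] {E : Type} [Field E]

/-- A closed immersion in the language of `Beil`. -/
def toCl {Z X : Var k} (f : Mo Z X) (h : f.Cl) : ClosedIn Z X := ⟨f.g, f.comm, h⟩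

/-- A closed immersion of `Beil` as a morphism. -/
def ofCl {Z X : Var k} (f : ClosedIn Z X) : Mo Z X := ⟨f.g, f.comm⟩

/-- An open immersion in the language of `Beil`. -/
def toOp {Z X : Var k} (f : Mo Z X) (h : f.Op) : OpenIn Z X := ⟨f.g, f.comm, h⟩

lemma rat_eq (i : ℕ) (X : Var k) : rat E i X = Pool.Agent.Lib_helper55.Beil.ratZero E i X := by
  unfold rat Pool.Agent.Lib_helper55.Beil.ratZero
  apply congrArg (Submodule.span E)
  ext c
  constructor
  · rintro ⟨W, hW, a, φ, h1, h2, h3, h4⟩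
    exact ⟨W, hW, toCl a h1, φ, h2, h3, h4⟩
  · rintro ⟨W, hW, a, φ, h2, h3, h4⟩
    exact ⟨W, hW, ofCl a, φ, a.closed, h2, h3, h4⟩

/-- The restriction of cycles. -/
noncomputable def res (i : ℕ) {V X : Var k} (j : Mo V X) (h : j.Op) :
    (Ps i X →₀ E) →ₗ[E] (Ps i V →₀ E) :=
  Pool.Agent.Lib_helper66.OneP.resCyc (E := E) (i := i) (toOp j h)

lemma sing_zero {α : Type} {a b : α} (h : a ≠ b) : Finsupp.single a (1 : E) b = 0 :=
  Finsupp.single_eq_of_ne' h

lemma sing_one {α : Type} {a b : α} (h : a = b) : Finsupp.single a (1 : E) b = 1 := by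
  subst h
  exact Finsupp.single_eq_same

lemma res_apply (i : ℕ) {V X : Var k} (j : Mo V X) (h : j.Op) (c : Ps i X →₀ E) (v : Ps i V) :
    res i j h c v = c ⟨im j v.1, (Pool.Agent.Lib_helper66.OneP.ptsMapO i (toOp j h) v).2⟩ := rfl

theorem restr (i : ℕ) {V X : Var k} (j : Mo V X) (h : j.Op) : ∃ ρ, Restr E i j ρ := by
  refine ⟨res i j h, ?_, ?_, ?_⟩
  · intro c hc
    rw [rat_eq] at hc ⊢
    exact Pool.Agent.Lib_helper66.OneP.resCyc_ratZero (toOp j h) c hc
  · intro x hx
    ext v
    rw [res_apply]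
    have h1 : x ≠ (⟨im j v.1, (Pool.Agent.Lib_helper66.OneP.ptsMapO i (toOp j h) v).2⟩ : Ps i X) := by
      intro h2
      exact hx ⟨v.1, (congrArg Subtype.val h2).symm⟩
    exact sing_zero h1
  · intro v hv
    ext w
    rw [res_apply]
    by_cases hw : v = w
    · subst hw
      exact (sing_one (E := E) rfl).trans (sing_one (E := E) rfl).symm
    · have h1 : (⟨im j v.1, hv⟩ : Ps i X) ≠
          (⟨im j w.1, (Pool.Agent.Lib_helper66.OneP.ptsMapO i (toOp j h) w).2⟩ : Ps i X) := by
        intro h2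
        exact hw (Subtype.ext (Pool.Agent.Lib_helper66.OneP.openIn_injective (toOp j h)
          (congrArg Subtype.val h2)))
      exact (sing_zero (E := E) h1).trans (sing_zero (E := E) hw).symm

theorem dim {V X : Var k} (j : Mo V X) (h : j.Op ∨ j.Cl) (v : Pt V) : di X (im j v) = di V v := by
  rcases h with h | h
  · have h1 : IsOpenImmersion j.g := h
    exact Pool.Agent.Lib_helper55.Beil.dim_map j.g j.comm v
  · have h1 : IsClosedImmersion j.g := h
    exact Pool.Agent.Lib_helper55.Beil.dim_map j.g j.comm v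

theorem compl {V X : Var k} (j : Mo V X) (h : j.Op) : ∃ (Z : Var k) (a : Mo Z X), Comp a j := by
  have h1 : IsOpenImmersion j.g := h
  have h2 : IsOpen (Set.range j.g) := j.g.isOpenEmbedding.isOpen_range
  let C : Closeds X.X := ⟨(Set.range j.g)ᶜ, h2.isClosed_compl⟩
  refine ⟨Pool.Agent.Lib_helper55.Beil.closedVar X C,
    ofCl (Pool.Agent.Lib_helper55.Beil.closedVarIn X C),
    (Pool.Agent.Lib_helper55.Beil.closedVarIn X C).closed, h, ?_⟩
  intro x
  have h3 : x ∈ Set.range (Pool.Agent.Lib_helper55.Beil.closedVarIn X C).g ↔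
      x ∈ (Set.range j.g)ᶜ := by
    rw [Pool.Agent.Lib_helper55.Beil.range_closedVarIn X C]
    rfl
  exact h3

theorem top (X : Var k) (d : ℕ) (h : IDim X d) : DimLE X d := by
  obtain ⟨hX, hd⟩ := h
  intro x
  rw [← hd]
  have h1 : genericPoint X.X ⤳ (x : X.X) := genericPoint_specializes (α := X.X) x
  exact Pool.Agent.Lib_helper55.Beil.dim_le_of_specializes X h1

end OPN_aux

theorem t_OPN (k : Type) [Field k] (E : Type) [Field E] : OPN k E where
  restr i _ _ j h := OPN_aux.restr i j h
  dim j h v := OPN_aux.dim j h v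
  compl j h := OPN_aux.compl j h
  top X d h := OPN_aux.top X d h

end OCY
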