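import Pool.Agent.OCY.St
import Pool.Agent.Lib_helper55.Beil.Geom

/-!
# OCY: points in the fibres of a surjective morphism
-/

set_option autoImplicit false

open CategoryTheory AlgebraicGeometry

namespace OCY

open Pool.Agent.Lib_helper55.Beil (Var)
open OCB

namespace PTS_aux

variable {k : Type} [Field k]

/-- A closed point of the fibre. -/
lemma exists_closed {X Y : Scheme.{0}} (f : X ⟶ Y) [LocallyOfFiniteType f]
    (hf : Function.Surjective f) (y : Y) :
    ∃ x : X, ∃ hx : f x = y, IsClosed {(f.fiberHomeo y).symm ⟨x, hx⟩} := by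
  obtain ⟨x0, hx0⟩ := hf y
  obtain ⟨z, -, hz⟩ := nonempty_inter_closedPoints (X := f.fiber y) (Z := Set.univ)
    ⟨(f.fiberHomeo y).symm ⟨x0, hx0⟩, trivial⟩ isClosed_univ.isLocallyClosed
  refine ⟨(f.fiberHomeo y z).1, (f.fiberHomeo y z).2, ?_⟩
  have e : (f.fiberHomeo y).symm ⟨(f.fiberHomeo y z).1, (f.fiberHomeo y z).2⟩ = z :=
    (f.fiberHomeo y).symm_apply_apply z
  rw [e]
  exact hz

/-- The residue field of a closed point of the fibre is finite. -/
lemma finite_of_closed {X Y : Scheme.{0}} (f : X ⟶ Y) [LocallyOfFiniteType f] (x : X)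
    (h : IsClosed {f.asFiber x}) : (f.residueFieldMap x).hom.Finite := by
  have h1 : IsClosedImmersion (f.asFiberHom x) :=
    .of_isPreimmersion _ (by rw [Scheme.Hom.range_asFiberHom]; exact h)
  have h2 : LocallyOfFiniteType (f.fiberToSpecResidueField (f x)) :=
    MorphismProperty.pullback_snd _ _ inferInstance
  have h3 : LocallyOfFiniteType (Spec.map (f.residueFieldMap x)) := by
    rw [← Scheme.Hom.asFiberHom_fiberToSpecResidueField]
    infer_instance
  have h4 : JacobsonSpace (Spec (Y.residueField (f x))) :=
    inferInstanceAs (JacobsonSpace (PrimeSpectrum (Y.residueField (f x))))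
  have h5 : IsReduced (Spec (X.residueField x)) := inferInstance
  have h6 : Subsingleton (Spec (X.residueField x)) := inferInstance
  have h7 : IsFinite (Spec.map (f.residueFieldMap x)) :=
    isFinite_iff_locallyOfFiniteType_of_jacobsonSpace.mpr h3
  exact (IsFinite.SpecMap_iff _).mp h7

/-- A finite extension of the residue fields does not change the dimension. -/
lemma dim_eq {Z X : Var k} (g : Z.X ⟶ X.X) (comm : g ≫ X.f = Z.f) (z : Z.X)
    (h : (g.residueFieldMap z).hom.Finite) : X.dim (g z) = Z.dim z := by
  let : Algebra k (X.X.residueField (g z)) := (X.toResidue (g z)).toAlgebra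
  let : Algebra k (Z.X.residueField z) := (Z.toResidue z).toAlgebra
  let : Algebra (X.X.residueField (g z)) (Z.X.residueField z) := (g.residueFieldMap z).hom.toAlgebra
  have : Module.Finite (X.X.residueField (g z)) (Z.X.residueField z) := h
  have : IsScalarTower k (X.X.residueField (g z)) (Z.X.residueField z) :=
    IsScalarTower.of_algebraMap_eq' (Pool.Agent.Lib_helper55.Beil.toResidue_map g comm z).symm
  have e := _root_.trdeg_add_eq k (X.X.residueField (g z)) (A := Z.X.residueField z)
  have e0 : Algebra.trdeg (X.X.residueField (g z)) (Z.X.residueField z) = 0 :=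
    _root_.trdeg_eq_zero
  rw [e0, add_zero] at e
  exact e

end PTS_aux

open PTS_aux in
/-- The points of the fibres. -/
theorem t_PTS : PTS := by
  intro k _ X Y f hf i y
  have h1 : LocallyOfFiniteType (f.g ≫ Y.f) := by rw [f.comm]; exact X.lft
  have h2 : LocallyOfFiniteType f.g := locallyOfFiniteType_of_comp f.g Y.f
  obtain ⟨y, hy⟩ := y
  obtain ⟨x, rfl, hx⟩ := exists_closed f.g hf y
  have h3 : (f.g.residueFieldMap x).hom.Finite := finite_of_closed f.g x hx
  refine ⟨⟨x, ?_⟩, rfl, ?_⟩
  · exact (dim_eq f.g f.comm x h3).symm.trans hy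
  · change f.g.residueDegree x ≠ 0
    unfold Scheme.Hom.residueDegree
    let : Algebra (Y.X.residueField (f.g x)) (X.X.residueField x) :=
      (f.g.residueFieldMap x).hom.toAlgebra
    have : Module.Finite (Y.X.residueField (f.g x)) (X.X.residueField x) := h3
    exact (Module.finrank_pos (R := Y.X.residueField (f.g x)) (M := X.X.residueField x)).ne'

end OCY
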