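import Pool.Agent.OCY.ASM2
import Pool.Agent.OCY.LIN
import Pool.Agent.OCY.FIB
import Pool.Agent.OCY.PTS
import Pool.Agent.OCY.PFF
import Pool.Agent.OCY.OPN
import Pool.Agent.OCY.DUA
import Pool.Agent.OCY.CMP
import Pool.Agent.OCY.BCC

/-!
# OCY: the main results
-/

set_option autoImplicit false

open CategoryTheory AlgebraicGeometry

namespace OCY

open Pool.Agent.Lib_helper55.Beil (Var)
open OCB

universe v

variable {k : Type} [Field k] {E : Type} [Field E] {T : Th.{v} k E}

theorem mods (hT : T.Pub) : Mods k E T where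
  lin := t_LIN
  fib := t_FIB k
  pts := t_PTS
  pff := t_PFF
  opn := t_OPN k E
  dua := t_DUA T
  alg := t_ALG T hT

theorem main [CharZero E] (hT : T.Pub) (hF : Facts T) : Main T :=
  ASM2_aux.main hT hF (mods hT) t_CMP t_BCC

theorem mainProducts [CharZero E] (hT : T.Pub) (hF : Facts T) (hS : Products T) : MainProducts T :=
  ASM2_aux.mainProducts hT hF (mods hT) t_CMP t_BCC hS

theorem reduction [CharZero E] (hT : T.Pub) (hF : Facts T) (hJ : DeJong k) : Reduction T := by
  intro d h V hV
  obtain ⟨W, U, j, g, h1, h2, h3, h4, h5, h6⟩ := hJ d V hV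
  exact (main hT hF).inj W U V j g (h W h1 h2 h3) h4 h5 h6

end OCY
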