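import Pool.Agent.OCY.Defs2
import Pool.Agent.OCY.Fin
import Pool.Agent.Lib_helper66.OneP.Loc

/-!
# OCY, module ASM3: the criterion
-/

set_option autoImplicit false

open CategoryTheory AlgebraicGeometry

namespace OCY

open Pool.Agent.Lib_helper55.Beil (Var mem_maxGen_iff maxGen_map maxGen_lift maxGen_eq_bot dim_map)
open OCB

universe v

namespace ASM3_aux

open ASM_aux ASM2_aux

/-- Fitting decomposition. -/
lemma fit {E M : Type*} [Field E] [AddCommGroup M] [Module E M] [FiniteDimensional E M]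
    (F : Module.End E M) (t : M) :
    ∃ t1 ∈ Module.End.maxGenEigenspace F 1, ∃ s : M, t = t1 + (F s - s) := by
  have h := LinearMap.isCompl_iSup_ker_pow_iInf_range_pow (F - 1)
  have h0 : t ∈ (⨆ n, LinearMap.ker ((F - 1) ^ n)) ⊔ ⨅ n, LinearMap.range ((F - 1) ^ n) := by
    rw [h.sup_eq_top]
    exact Submodule.mem_top
  obtain ⟨t1, h1, t2, h2, h3⟩ := Submodule.mem_sup.mp h0
  have h4 : (⨆ n, LinearMap.ker ((F - 1) ^ n)) ≤ Module.End.maxGenEigenspace F 1 := by
    apply iSup_le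
    intro n m hm
    exact (mem_maxGen_iff F m).mpr ⟨n, hm⟩
  have h5 : t2 ∈ LinearMap.range ((F - 1) ^ 1) := (Submodule.mem_iInf _).mp h2 1
  obtain ⟨s, hs⟩ := h5
  refine ⟨t1, h4 h1, s, ?_⟩
  rw [← h3, ← hs, pow_one, LinearMap.sub_apply, Module.End.one_apply]

variable {k : Type} [Field k] {E : Type} [Field E] {T : Th.{v} k E}

/-- The pairing as a bilinear map. -/
noncomputable def bil {X : Var k} {d i : ℕ} {B : T.H d (2 * d) X → T.H i (2 * i) X → E}
    (hB : Pairing T X d i B) : T.H d (2 * d) X →ₗ[E] T.H i (2 * i) X →ₗ[E] E :=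
  LinearMap.mk₂ E B hB.addl hB.smull hB.addr hB.smulr

lemma CZ_add {i : ℕ} {X : Var k} (c c' : Ps i X →₀ ℤ) : CZ T (c + c') = CZ T c + CZ T c' :=
  Finsupp.sum_add_index' (fun _ => zero_smul _ _) (fun _ _ _ => add_smul _ _ _)

lemma CZ_zero {i : ℕ} {X : Var k} : CZ T (0 : Ps i X →₀ ℤ) = 0 := Finsupp.sum_zero_index

lemma CZ_neg {i : ℕ} {X : Var k} (c : Ps i X →₀ ℤ) : CZ T (-c) = - CZ T c := by
  rw [eq_neg_iff_add_eq_zero, ← CZ_add, neg_add_cancel, CZ_zero]

lemma CZ_sing {i : ℕ} {X : Var k} (x : Ps i X) (n : ℤ) :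
    CZ T (Finsupp.single x n) = n • T.cl i X x := by
  unfold CZ
  exact Finsupp.sum_single_index (zero_smul _ _)

/-- The linear forms defined by algebraic classes. -/
noncomputable def forms {X : Var k} {d i : ℕ} {B : T.H d (2 * d) X → T.H i (2 * i) X → E}
    (hB : Pairing T X d i B) : AddSubgroup (T.H i (2 * i) X →ₗ[E] E) where
  carrier := {φ | ∃ c : Ps d X →₀ ℤ, φ = bil hB (CZ T c)}
  zero_mem' := ⟨0, by rw [CZ_zero, map_zero]⟩
  neg_mem' := by
    rintro _ ⟨c, rfl⟩
    exact ⟨-c, by rw [CZ_neg, map_neg]⟩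
  add_mem' := by
    rintro _ _ ⟨c, rfl⟩ ⟨c', rfl⟩
    exact ⟨c + c', by rw [CZ_add, map_add]⟩

lemma bil_int {X : Var k} {d i : ℕ} {B : T.H d (2 * d) X → T.H i (2 * i) X → E}
    (hB : Pairing T X d i B) (c : Ps d X →₀ ℤ) (y : Ps i X) :
    ∃ r : ℤ, bil hB (CZ T c) (T.cl i X y) = r := by
  induction c using Finsupp.induction_linear with
  | zero => exact ⟨0, by rw [CZ_zero, map_zero, LinearMap.zero_apply, Int.cast_zero]⟩
  | add c c' h h' =>
    obtain ⟨r, hr⟩ := h
    obtain ⟨r', hr'⟩ := h'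
    exact ⟨r + r', by rw [CZ_add, map_add, LinearMap.add_apply, hr, hr', Int.cast_add]⟩
  | single x n =>
    obtain ⟨r, hr⟩ := hB.int x y
    refine ⟨n * r, ?_⟩
    have h1 : CZ T (Finsupp.single x n) = n • T.cl d X x := CZ_sing x n
    have h2 : bil hB (T.cl d X x) (T.cl i X y) = r := hr
    rw [h1, map_zsmul, LinearMap.smul_apply, h2, zsmul_eq_mul, Int.cast_mul]

section Main

variable (hT : T.Pub) (A : ALG T)

include hT A

/-- An invariant class which is orthogonal to all algebraic classes vanishes. -/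
lemma orth {X : Var k} {d i : ℕ} {B : T.H d (2 * d) X → T.H i (2 * i) X → E}
    (hB : Pairing T X d i B) (hd : Q1at T d X) (y : T.H i (2 * i) X) (hy : T.F y = y)
    (h : ∀ x : Ps d X, B (T.cl d X x) y = 0) : y = 0 := by
  apply hB.nondeg
  intro n
  have hfin := T.fin d (2 * d) X
  obtain ⟨n1, h1, s, hs⟩ := fit (T.fr d (2 * d) X) n
  obtain ⟨c, hc⟩ := (A.iff d X).mpr hd.2 n1 h1
  have e1 : ∀ c : Ps d X →₀ E, bil hB (T.C c) y = 0 := by
    intro c
    have e2 : (LinearMap.flip (bil hB) y) ∘ₗ (Finsupp.linearCombination E (T.cl d X)) = 0 := by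
      apply Finsupp.lhom_ext
      intro x e
      have h3 : bil hB (T.cl d X x) y = 0 := h x
      rw [LinearMap.comp_apply, Finsupp.linearCombination_single, map_smul, LinearMap.flip_apply,
        h3, smul_zero, LinearMap.zero_apply]
    exact congrArg (fun f => f c) e2
  have e3 : bil hB (T.fr d (2 * d) X s) y = bil hB s y := by
    have e4 := hB.frob s y
    rw [hy] at e4
    exact e4
  have e5 : bil hB n y = 0 := by
    rw [hs, map_add, map_sub, LinearMap.add_apply, LinearMap.sub_apply, ← hc, e1 c, e3, sub_self,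
      add_zero]
  exact e5

omit A in
lemma frob_CZ {i : ℕ} {X : Var k} (c : Ps i X →₀ ℤ) : T.F (CZ T c) = CZ T c := by
  have h : T.fr i (2 * i) X (CZ T c) = CZ T c := by
    induction c using Finsupp.induction_linear with
    | zero => rw [CZ_zero, map_zero]
    | add c c' h h' => rw [CZ_add, map_add, h, h']
    | single x n =>
      rw [CZ_sing, map_zsmul]
      congr 1
      exact hT.frob.cls i X x
  exact h

omit A in
/-- The push-forward of points of a closed subvariety. -/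
lemma C_map {i : ℕ} {Z X : Var k} (a : Mo Z X) (ha : a.Cl)
    (hd : ∀ z : Pt Z, di X (im a z) = di Z z) (z : Ps i Z →₀ E) :
    T.C (Finsupp.mapDomain (fun z : Ps i Z => (⟨im a z.1, (hd z.1).trans z.2⟩ : Ps i X)) z) =
      T.P a (T.C z) := by
  have h : (Finsupp.linearCombination E (T.cl i X)) ∘ₗ
      (Finsupp.lmapDomain E E (fun z : Ps i Z => (⟨im a z.1, (hd z.1).trans z.2⟩ : Ps i X))) =
      (T.pf i (2 * i) a) ∘ₗ (Finsupp.linearCombination E (T.cl i Z)) := by
    apply Finsupp.lhom_ext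
    intro x e
    rw [LinearMap.comp_apply, LinearMap.comp_apply, Finsupp.lmapDomain_apply,
      Finsupp.mapDomain_single, Finsupp.linearCombination_single, Finsupp.linearCombination_single,
      map_smul]
    congr 1
    exact (hT.cyc.closed i a ha x ((hd x.1).trans x.2)).symm
  exact congrArg (fun f => f z) h

omit hT A in
/-- The restriction of cycles of `OPN`. -/
lemma res_restr (i : ℕ) {V X : Var k} (j : Mo V X) (h : j.Op) :
    Restr E i j (OPN_aux.res i j h) := by
  refine ⟨?_, ?_, ?_⟩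
  · intro c hc
    rw [OPN_aux.rat_eq] at hc ⊢
    exact Pool.Agent.Lib_helper66.OneP.resCyc_ratZero (OPN_aux.toOp j h) c hc
  · intro x hx
    ext v
    rw [OPN_aux.res_apply]
    have h1 : x ≠ (⟨im j v.1,
        (Pool.Agent.Lib_helper66.OneP.ptsMapO i (OPN_aux.toOp j h) v).2⟩ : Ps i X) := by
      intro h2
      exact hx ⟨v.1, (congrArg Subtype.val h2).symm⟩
    exact OPN_aux.sing_zero h1
  · intro v hv
    ext w
    rw [OPN_aux.res_apply]
    by_cases hw : v = w
    · subst hw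
      exact (OPN_aux.sing_one (E := E) rfl).trans (OPN_aux.sing_one (E := E) rfl).symm
    · have h1 : (⟨im j v.1, hv⟩ : Ps i X) ≠
          (⟨im j w.1, (Pool.Agent.Lib_helper66.OneP.ptsMapO i (OPN_aux.toOp j h) w).2⟩ : Ps i X) := by
        intro h2
        exact hw (Subtype.ext (Pool.Agent.Lib_helper66.OneP.openIn_injective (OPN_aux.toOp j h)
          (congrArg Subtype.val h2)))
      exact (OPN_aux.sing_zero (E := E) h1).trans (OPN_aux.sing_zero (E := E) hw).symm

omit hT A in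
/-- A cycle whose restriction to the complement vanishes is a push-forward. -/
lemma supp {i : ℕ} {Z V X : Var k} (a : Mo Z X) (j : Mo V X) (hc : Comp a j)
    (hd : ∀ z : Pt Z, di X (im a z) = di Z z) (c : Ps i X →₀ E)
    (h : OPN_aux.res i j hc.2.1 c = 0) :
    ∃ z : Ps i Z →₀ E,
      Finsupp.mapDomain (fun z : Ps i Z => (⟨im a z.1, (hd z.1).trans z.2⟩ : Ps i X)) z = c := by
  have ha : IsClosedImmersion a.g := hc.1
  have hinj : Function.Injective (fun z : Ps i Z => (⟨im a z.1, (hd z.1).trans z.2⟩ : Ps i X)) := by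
    intro z w hzw
    exact Subtype.ext (a.g.isEmbedding.injective (congrArg Subtype.val hzw))
  refine ⟨Finsupp.comapDomain _ c hinj.injOn, Finsupp.mapDomain_comapDomain _ hinj _ ?_⟩
  intro p hp
  have hp' : c p ≠ 0 := Finsupp.mem_support_iff.mp hp
  have h1 : ¬ ∃ v, im j v = p.1 := by
    rintro ⟨v, hv⟩
    have hdv : di V v = i := by
      rw [← OPN_aux.dim j (Or.inl hc.2.1) v, hv]
      exact p.2
    have h2 : OPN_aux.res i j hc.2.1 c ⟨v, hdv⟩ = 0 := by rw [h]; rfl
    rw [OPN_aux.res_apply] at h2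
    apply hp'
    have h3 : p = (⟨im j v, (Pool.Agent.Lib_helper66.OneP.ptsMapO i
        (OPN_aux.toOp j hc.2.1) ⟨v, hdv⟩).2⟩ : Ps i X) := Subtype.ext hv.symm
    rw [h3]
    exact h2
  obtain ⟨z, hz⟩ := (hc.2.2 p.1).mpr h1
  refine ⟨⟨z, ?_⟩, Subtype.ext hz⟩
  rw [← hd z, hz]
  exact p.2

omit hT A in
lemma exists_rat {i : ℕ} {V X : Var k} (j : Mo V X) (h : j.Op) (c : Ps i V →₀ E)
    (hc : c ∈ rat E i V) : ∃ c' ∈ rat E i X, OPN_aux.res i j h c' = c := by
  rw [OPN_aux.rat_eq] at hc ⊢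
  exact Pool.Agent.Lib_helper66.OneP.exists_ratZero (OPN_aux.toOp j h) c hc

/-- The injectivity implies the numerical criterion. -/
theorem crit_mp {d i : ℕ} {X Z V : Var k} (a : Mo Z X) (j : Mo V X)
    {B : T.H d (2 * d) X → T.H i (2 * i) X → E} (hB : Pairing T X d i B) (hX : Q1at T i X)
    (hc : Comp a j) (hap : a.Pr) (hV : T.Inj i V) : NumHom T B a := by
  intro c h0 t
  have hd : ∀ z : Pt Z, di X (im a z) = di Z z := fun z => OPN_aux.dim a (Or.inr hc.1) z
  have hfin := T.fin i (2 * i) Z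
  obtain ⟨t1, h1, s, hs⟩ := fit (T.fr i (2 * i) Z) t
  have e1 : bil hB (CZ T c) (T.P a (T.F s)) = bil hB (CZ T c) (T.P a s) := by
    have e2 := hB.frob (CZ T c) (T.P a s)
    rw [frob_CZ hT, ← hT.frob.push i (2 * i) a hap] at e2
    exact e2
  have h2 : T.P a t1 ∈ Module.End.maxGenEigenspace (T.fr i (2 * i) X) 1 :=
    maxGen_map (T.fr i (2 * i) Z) (T.fr i (2 * i) X) (T.pf i (2 * i) a)
      (fun m => hT.frob.push i (2 * i) a hap m) h1
  obtain ⟨e, he⟩ := (A.iff i X).mpr hX.2 _ h2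
  have h3 : T.C (OPN_aux.res i j hc.2.1 e) = 0 := by
    rw [← A.res i a j hc _ (res_restr i j hc.2.1), he]
    exact (hT.loc.atX i (2 * i) a j hc _).mpr ⟨t1, rfl⟩
  obtain ⟨e', he', he2⟩ := exists_rat j hc.2.1 _ (hV _ h3)
  obtain ⟨z, hz⟩ := supp a j hc hd (e - e') (by rw [map_sub, he2, sub_self])
  have e9 : T.P a (T.C z) = T.C (e - e') :=
    (C_map hT a hc.1 hd z).symm.trans (congrArg (fun w => T.C w) hz)
  have h4 : T.P a t1 = T.P a (T.C z) := by
    rw [e9, C_sub, hT.cyc.rat i X e' he', sub_zero, he]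
  have h5 : bil hB (CZ T c) (T.P a (T.C z)) = 0 := by
    have e5 : (bil hB (CZ T c)) ∘ₗ (T.pf i (2 * i) a) ∘ₗ
        (Finsupp.linearCombination E (T.cl i Z)) = 0 := by
      apply Finsupp.lhom_ext
      intro x r
      have e6 : bil hB (CZ T c) (T.pf i (2 * i) a (T.cl i Z x)) = 0 := h0 x
      rw [LinearMap.comp_apply, LinearMap.comp_apply, Finsupp.linearCombination_single, map_smul,
        map_smul, e6, smul_zero, LinearMap.zero_apply]
    exact congrArg (fun f => f z) e5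
  have h6 : bil hB (CZ T c) (T.P a t) = 0 := by
    have e7 : T.P a t = T.P a t1 + (T.P a (T.F s) - T.P a s) := by
      have e8 : T.pf i (2 * i) a t = T.pf i (2 * i) a t1 + (T.pf i (2 * i) a (T.fr i (2 * i) Z s) -
          T.pf i (2 * i) a s) := by rw [hs, map_add, map_sub]
      exact e8
    rw [e7, map_add, map_sub, e1, sub_self, add_zero, h4, h5]
  exact h6

/-- Injectivity on the complement of a closed subvariety all whose Tate classes are algebraic. -/
theorem inj_loc {i : ℕ} {X Z V : Var k} (a : Mo Z X) (j : Mo V X) (hc : Comp a j) (hap : a.Pr)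
    (hX : T.Inj i X) (hZ : Alg T i Z) : T.Inj i V := by
  intro c hc0
  have hρ := res_restr (E := E) i j hc.2.1
  obtain ⟨c', hc'⟩ := ρ_surj (t_OPN k E) j hc.2.1 _ hρ c
  have h1 : T.R j (T.C c') = 0 := by rw [A.res i a j hc _ hρ, hc', hc0]
  obtain ⟨z, hz⟩ := (hT.loc.atX i (2 * i) a j hc _).mp h1
  obtain ⟨z', h2, h3⟩ := A.lift i a hap z (by rw [hz]; exact A.mem i X c')
  obtain ⟨d, hd⟩ := hZ z' h2
  have h4 : T.C (c' - pfc E i a d) = 0 := by
    rw [C_sub, ← A.push i a hap, hd, h3, hz, sub_self]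
  have h5 := hρ.rat _ (hX _ h4)
  rw [map_sub, ρ_out a j hc _ hρ, sub_zero, hc'] at h5
  exact h5

/-- The numerical criterion implies the injectivity. -/
theorem crit_mpr [CharZero E] {d i : ℕ} {X Z V : Var k} (a : Mo Z X) (j : Mo V X)
    {B : T.H d (2 * d) X → T.H i (2 * i) X → E} (hB : Pairing T X d i B) (hX : Q1at T i X)
    (hXd : Q1at T d X) (hc : Comp a j) (hap : a.Pr) (hN : NumHom T B a) : T.Inj i V := by
  intro c hc0
  have hρ := res_restr (E := E) i j hc.2.1
  have hd : ∀ z : Pt Z, di X (im a z) = di Z z := fun z => OPN_aux.dim a (Or.inr hc.1) z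
  obtain ⟨c', hc'⟩ := ρ_surj (t_OPN k E) j hc.2.1 _ hρ c
  have h1 : T.R j (T.C c') = 0 := by rw [A.res i a j hc _ hρ, hc', hc0]
  obtain ⟨t, ht⟩ := (hT.loc.atX i (2 * i) a j hc _).mp h1
  have hfin := T.fin i (2 * i) X
  have hcl : ∀ z : Ps i Z, T.P a (T.cl i Z z) = T.cl i X ⟨im a z.1, (hd z.1).trans z.2⟩ :=
    fun z => hT.cyc.closed i a hc.1 z ((hd z.1).trans z.2)
  have hspan : T.C c' ∈ Submodule.span E (Set.range fun z : Ps i Z => T.P a (T.cl i Z z)) := by
    refine t_LIN E (T.H i (2 * i) X) (forms hB) _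
      (LinearMap.range (Finsupp.linearCombination E (T.cl i X))) ?_ ?_ ?_ (T.C c') ⟨c', rfl⟩ ?_
    · rintro _ ⟨c, rfl⟩ _ ⟨z, rfl⟩
      change ∃ n : ℤ, bil hB (CZ T c) (T.P a (T.cl i Z z)) = n
      rw [hcl z]
      exact bil_int hB c _
    · rintro _ ⟨w, rfl⟩ hw
      refine orth hT A hB hXd _ (ALG_aux.frob_C hT i X w) ?_
      intro x
      have h3 := hw (bil hB (CZ T (Finsupp.single x 1))) ⟨_, rfl⟩
      rw [CZ_sing, one_smul] at h3
      exact h3
    · rintro _ ⟨z, rfl⟩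
      change T.P a (T.cl i Z z) ∈ _
      rw [hcl z, ← C_single]
      exact ⟨_, rfl⟩
    · rintro _ ⟨c, rfl⟩ hS
      have h4 := hN c (fun z => hS _ ⟨z, rfl⟩) t
      rw [ht] at h4
      exact h4
  have hle : Submodule.span E (Set.range fun z : Ps i Z => T.P a (T.cl i Z z)) ≤
      (LinearMap.range ((T.pf i (2 * i) a) ∘ₗ (Finsupp.linearCombination E (T.cl i Z)))) := by
    rw [Submodule.span_le]
    rintro _ ⟨z, rfl⟩
    refine ⟨Finsupp.single z 1, ?_⟩
    rw [LinearMap.comp_apply, Finsupp.linearCombination_single, one_smul]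
    rfl
  obtain ⟨z, hz⟩ := hle hspan
  have hz' : T.P a (T.C z) = T.C c' := hz
  have h4 : T.C (c' - pfc E i a z) = 0 := by
    rw [C_sub, ← A.push i a hap, hz', sub_self]
  have h5 := hρ.rat _ (hX.1 _ h4)
  rw [map_sub, ρ_out a j hc _ hρ, sub_zero, hc'] at h5
  exact h5

end Main

lemma hsurj (hT : T.Pub) (hF : Facts T) [CharZero E] (i : ℕ) {X V : Var k} (j : Mo V X)
    (hj : j.Op) (h : T.Surj i X ∧ T.Semi i X) : T.Surj i V ∧ T.Semi i V := by
  have M := mods hT
  rcases Nat.eq_zero_or_pos i with h0 | h0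
  · subst h0
    exact hF.zero.surj V
  · obtain ⟨i, rfl⟩ : ∃ i', i = i' + 1 := ⟨i - 1, by omega⟩
    exact (M.alg.iff (i + 1) V).mp (alg_open hT hF M i j hj ((M.alg.iff (i + 1) X).mpr h))

/-- `NumHom` descends along proper surjective morphisms. -/
lemma numHom_onto (hT : T.Pub) (hF : Facts T) (A : ALG T) {d i : ℕ} {X Z W : Var k} (a : Mo Z X)
    (g : Mo W Z) {B : T.H d (2 * d) X → T.H i (2 * i) X → E} (hB : Pairing T X d i B) (ha : a.Pr)
    (hg : g.Pr) (hgo : Onto g) (hN : NumHom T B (ASM_aux.comp g a)) : NumHom T B a := by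
  intro c h0 t
  have hfin := T.fin i (2 * i) Z
  obtain ⟨t1, h1, s, hs⟩ := fit (T.fr i (2 * i) Z) t
  obtain ⟨t2, ht2⟩ := hF.descent.onto i g hg hgo t1 h1
  have e1 : bil hB (CZ T c) (T.P a (T.F s)) = bil hB (CZ T c) (T.P a s) := by
    have e2 := hB.frob (CZ T c) (T.P a s)
    rw [frob_CZ hT, ← hT.frob.push i (2 * i) a ha] at e2
    exact e2
  have hco : ∀ m : T.H i (2 * i) W, T.P (ASM_aux.comp g a) m = T.P a (T.P g m) := fun m =>
    (hT.push.comp i (2 * i) g a (ASM_aux.comp g a) hg ha rfl m).symm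
  have h2 : bil hB (CZ T c) (T.P a t1) = 0 := by
    rw [← ht2, ← hco]
    refine hN c (fun x => ?_) t2
    rw [hco]
    have h3 := hT.cyc.push i g hg x
    by_cases h4 : di Z (im g x.1) = i
    · rw [h3.1 h4]
      have h5 : bil hB (CZ T c) (T.pf i (2 * i) a (T.cl i Z ⟨im g x.1, h4⟩)) = 0 := h0 _
      have h6 : bil hB (CZ T c) (T.pf i (2 * i) a ((deg g x.1 : E) • T.cl i Z ⟨im g x.1, h4⟩)) =
          0 := by rw [map_smul, map_smul, h5, smul_zero]
      exact h6
    · rw [h3.2 h4]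
      have h6 : bil hB (CZ T c) (T.pf i (2 * i) a 0) = 0 := by rw [map_zero, map_zero]
      exact h6
  have h6 : bil hB (CZ T c) (T.P a t) = 0 := by
    have e7 : T.P a t = T.P a t1 + (T.P a (T.F s) - T.P a s) := by
      have e8 : T.pf i (2 * i) a t = T.pf i (2 * i) a t1 + (T.pf i (2 * i) a (T.fr i (2 * i) Z s) -
          T.pf i (2 * i) a s) := by rw [hs, map_add, map_sub]
      exact e8
    rw [e7, map_add, map_sub, e1, sub_self, add_zero, h2]
  exact h6

theorem smoothly [CharZero E] (hT : T.Pub) (hF : Facts T) (hJ : DeJong k) : Smoothly T := by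
  intro d i X Z V a j B hX hB h1 h2 hc D hD hN
  have M := mods hT
  have hap : a.Pr := M.fib.closed a hc.1
  have hZp : Proper Z := M.fib.trans a hap hX.2.1
  obtain ⟨W, U, l, g, h3, h4, h5, h6, h7, h8⟩ := hJ D Z hD
  have hUp : Proper U := M.fib.trans g h7 hZp
  have hUs : Smooth U.f := by
    have hl : IsOpenImmersion l.g := h6
    rw [← l.comm]
    infer_instance
  have hUd : DimLE U D := by
    intro u
    rw [← M.opn.dim l (Or.inl h6) u]
    exact h5 _
  have hNa : NumHom T B a :=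
    numHom_onto hT hF M.alg a g hB hap h7 h8 (hN U (ASM_aux.comp g a) hUs hUp hUd)
  exact ⟨crit_mpr hT M.alg a j hB h1 h2 hc hap hNa, hsurj hT hF i j hc.2.1 h1.2⟩

theorem open_main [CharZero E] (hT : T.Pub) (hF : Facts T) (hTop : Top T) : Open T := by
  have M := mods hT
  refine ⟨?_, ?_⟩
  · intro d i X Z V a j B _ hB hX hXd hc
    have hap : a.Pr := M.fib.closed a hc.1
    constructor
    · intro hV
      exact crit_mp hT M.alg a j hB hX hc hap hV.1
    · intro hN
      exact ⟨crit_mpr hT M.alg a j hB hX hXd hc hap hN, hsurj hT hF i j hc.2.1 hX.2⟩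
  · intro d X Z V a j hX hQ hc hZ i
    have hap : a.Pr := M.fib.closed a hc.1
    rcases Nat.lt_or_ge i 2 with h2 | h2
    · rcases Nat.eq_zero_or_pos i with h0 | h0
      · subst h0
        exact ⟨inj_zero hT hF M j hX.2.1 hc.2.1, hF.zero.surj V⟩
      · obtain rfl : i = 1 := by omega
        exact (main hT hF).onecycles d X V V j (ide V) hX (hQ 1) (hQ d) hc.2.1 (ide_pr hT hF M V)
          (ide_onto hT hF M V)
    · refine ⟨inj_loc hT M.alg a j hc hap (hQ i).1 ((M.alg.iff i Z).mpr (hTop i Z ?_)),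
        hsurj hT hF i j hc.2.1 (hQ i).2⟩
      intro z
      refine (hZ z).trans ?_
      exact_mod_cast h2

end ASM3_aux

end OCY
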