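import Pool.Agent.Lib_helper55.Beil.Defs

/-!
# OCY: varieties, cycles, homology theories

The varieties (separated schemes of finite type over a field `k`) and the dimension of points are defined
in `Lib_helper55/Beil/Defs.lean`.
-/

set_option autoImplicit false

open CategoryTheory AlgebraicGeometry Polynomial

namespace OCB

open Pool.Agent.Lib_helper55.Beil (Var)

universe v

variable {k : Type} [Field k]

/-! ## Points and morphisms -/

/-- The points of a variety. -/
def Pt (X : Var k) : Type := X.X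

/-- The dimension of (the closure of) a point. -/
noncomputable def di (X : Var k) (x : Pt X) : Cardinal := X.dim x

/-- The variety `X` has dimension at most `n`. -/
def DimLE (X : Var k) (n : ℕ) : Prop := ∀ x : Pt X, di X x ≤ n

/-- The `i`-dimensional points. -/
def Ps (i : ℕ) (X : Var k) : Type := {x : Pt X // di X x = i}

/-- The generic point of an integral variety. -/
noncomputable def gp (X : Var k) (h : IsIntegral X.X) : Pt X := genericPoint X.X

/-- The integral variety `X` has dimension `d`. -/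
def IDim (X : Var k) (d : ℕ) : Prop := ∃ h : IsIntegral X.X, di X (gp X h) = d

/-- A morphism of varieties. -/
structure Mo (X Y : Var k) where
  /-- the morphism of schemes -/
  g : X.X ⟶ Y.X
  comm : g ≫ Y.f = X.f

/-- The image of a point. -/
def im {X Y : Var k} (f : Mo X Y) (x : Pt X) : Pt Y := f.g x

/-- The degree of the residue field of `x` over that of its image (`0` if it is infinite). -/
noncomputable def deg {X Y : Var k} (f : Mo X Y) (x : Pt X) : ℕ := f.g.residueDegree x

/-- The morphism is a closed immersion. -/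
def Mo.Cl {X Y : Var k} (f : Mo X Y) : Prop := IsClosedImmersion f.g

/-- The morphism is an open immersion. -/
def Mo.Op {X Y : Var k} (f : Mo X Y) : Prop := LocallyRingedSpace.IsOpenImmersion f.g.toLRSHom

/-- The morphism is proper. -/
def Mo.Pr {X Y : Var k} (f : Mo X Y) : Prop := IsProper f.g

/-- The morphism `h` is the composition of `f` and `g`. -/
def Co {X Y Z : Var k} (f : Mo X Y) (g : Mo Y Z) (h : Mo X Z) : Prop := f.g ≫ g.g = h.g

/-- The square is cartesian. -/
def Ca {A B C D : Var k} (a : Mo A B) (b : Mo A C) (c : Mo B D) (d : Mo C D) : Prop :=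
  IsPullback a.g b.g c.g d.g

/-- `a` is a closed immersion, `j` is an open immersion, and their images are complementary. -/
def Comp {Z U X : Var k} (a : Mo Z X) (j : Mo U X) : Prop :=
  a.Cl ∧ j.Op ∧ ∀ x : Pt X, (∃ z, im a z = x) ↔ ¬ ∃ u, im j u = x

/-- `q` is the projection of the product of `X` and the affine line. -/
def Mo.Line {Y X : Var k} (q : Mo Y X) : Prop :=
  ∃ t : Y.X ⟶ Spec (CommRingCat.of k[X]),
    IsPullback q.g t X.f (Spec.map (CommRingCat.ofHom (algebraMap k k[X])))

/-- `q` is, locally on `X`, the projection of the product with the affine line (for example the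
projection of a line bundle). -/
def Mo.Bun {Y X : Var k} (q : Mo Y X) : Prop :=
  ∀ x : Pt X, ∃ (W V : Var k) (L : Mo W V) (l : Mo W Y) (j : Mo V X),
    L.Line ∧ l.Op ∧ j.Op ∧ Ca L l j q ∧ ∃ v, im j v = x

/-- `Y` is a smooth proper integral variety of dimension `d`. -/
def SP (Y : Var k) (d : ℕ) : Prop := Smooth Y.f ∧ IsProper Y.f ∧ IDim Y d

/-- The point: the spectrum of `k`. -/
noncomputable def point (k : Type) [Field k] : Var k where
  X := Spec (CommRingCat.of k)
  f := 𝟙 _
  sep := inferInstance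
  lft := inferInstance
  qc := inferInstance

/-! ## Cycles -/

section Cycles

variable (E : Type) [Field E]

/-- The cycle `c` on `X` is the divisor of the rational function `φ` on the closed subvariety `W`. -/
def Dv {i : ℕ} {W X : Var k} (a : Mo W X) (hW : IsIntegral W.X) (φ : W.X.functionField)
    (c : Ps i X →₀ E) : Prop :=
  (∀ (w : Pt W) (h : di X (im a w) = i), c ⟨im a w, h⟩ = (Scheme.ord φ (w : W.X) : ℤ)) ∧
    ∀ x : Ps i X, (¬ ∃ w, im a w = x.1) → c x = 0

/-- The cycles rationally equivalent to zero. -/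
noncomputable def rat (i : ℕ) (X : Var k) : Submodule E (Ps i X →₀ E) :=
  Submodule.span E {c | ∃ (W : Var k) (hW : IsIntegral W.X) (a : Mo W X) (φ : W.X.functionField),
    a.Cl ∧ di W (gp W hW) = (i + 1 : ℕ) ∧ φ ≠ 0 ∧ Dv E a hW φ c}

end Cycles

/-! ## Homology theories -/

/-- Finite-dimensional vector spaces `H i n X` with their maps and the classes of points; the example is
the l-adic etale (Borel-Moore) homology `H_n(Xbar, Q_l(i))`.  The push-forward is used for proper
morphisms, the pull-back `pb` for open immersions, the pull-back `lb` for line bundles, the boundary map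
for complementary closed and open subvarieties. -/
structure Th (k : Type) [Field k] (E : Type) [Field E] where
  /-- the homology groups -/
  H : ℕ → ℕ → Var k → ModuleCat.{v} E
  fin : ∀ i n X, Module.Finite E (H i n X)
  /-- Frobenius -/
  fr : ∀ (i n : ℕ) (X : Var k), H i n X →ₗ[E] H i n X
  /-- push-forward -/
  pf : ∀ (i n : ℕ) {X Y : Var k}, Mo X Y → (H i n X →ₗ[E] H i n Y)
  /-- pull-back -/
  pb : ∀ (i n : ℕ) {X Y : Var k}, Mo X Y → (H i n Y →ₗ[E] H i n X)
  /-- pull-back to a line bundle -/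
  lb : ∀ (i n : ℕ) {Y X : Var k}, Mo Y X → (H i n X →ₗ[E] H (i + 1) (n + 2) Y)
  /-- boundary map -/
  bd : ∀ (i n : ℕ) {Z U X : Var k}, Mo Z X → Mo U X → (H i (n + 1) U →ₗ[E] H i n Z)
  /-- the class of an `i`-dimensional point -/
  cl : ∀ (i : ℕ) (X : Var k), Ps i X → H i (2 * i) X

section Theory

variable {E : Type} [Field E] (T : Th.{v} k E) {i n : ℕ}

/-- Frobenius. -/
def Th.F {X : Var k} (m : T.H i n X) : T.H i n X := T.fr i n X m

/-- Push-forward. -/
def Th.P {X Y : Var k} (f : Mo X Y) (m : T.H i n X) : T.H i n Y := T.pf i n f m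

/-- Pull-back. -/
def Th.R {X Y : Var k} (f : Mo X Y) (m : T.H i n Y) : T.H i n X := T.pb i n f m

/-- Pull-back to a line bundle. -/
def Th.V {Y X : Var k} (q : Mo Y X) (m : T.H i n X) : T.H (i + 1) (n + 2) Y := T.lb i n q m

/-- Boundary. -/
def Th.B {Z U X : Var k} (a : Mo Z X) (j : Mo U X) (u : T.H i (n + 1) U) : T.H i n Z :=
  T.bd i n a j u

/-- The class of a cycle. -/
noncomputable def Th.C {X : Var k} (c : Ps i X →₀ E) : T.H i (2 * i) X :=
  Finsupp.linearCombination E (T.cl i X) c

/-- The cycle class map is injective on the cycles modulo rational equivalence. -/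
def Th.Inj (i : ℕ) (X : Var k) : Prop := ∀ c : Ps i X →₀ E, T.C c = 0 → c ∈ rat E i X

/-- The cycle class map is surjective onto the invariants of Frobenius. -/
def Th.Surj (i : ℕ) (X : Var k) : Prop :=
  ∀ m : T.H i (2 * i) X, T.F m = m → ∃ c : Ps i X →₀ E, T.C c = m

/-- The eigenvalue one of Frobenius is semisimple. -/
def Th.Semi (i : ℕ) (X : Var k) : Prop :=
  ∀ m : T.H i (2 * i) X, T.F (T.F m - m) = T.F m - m → T.F m = m

/-- The generalised Beilinson conjecture for `X` (for cycles of all dimensions). -/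
def Th.Q1 (X : Var k) : Prop := ∀ i, T.Inj i X ∧ T.Surj i X ∧ T.Semi i X

/-- The conjecture of Tate for `X` (for cycles of all dimensions). -/
def Th.Tate (X : Var k) : Prop := ∀ i, T.Surj i X ∧ T.Semi i X

/-- The push-forward along proper morphisms. -/
structure Th.Push : Prop where
  comp : ∀ (i n : ℕ) {X Y Z : Var k} (f : Mo X Y) (g : Mo Y Z) (h : Mo X Z), f.Pr → g.Pr →
    Co f g h → ∀ m : T.H i n X, T.P g (T.P f m) = T.P h m
  base : ∀ (i n : ℕ) {U' X' U X : Var k} (j' : Mo U' X') (f' : Mo U' U) (f : Mo X' X)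
    (j : Mo U X), f.Pr → j.Op → Ca j' f' f j → ∀ m : T.H i n X', T.R j (T.P f m) = T.P f' (T.R j' m)

/-- The localisation sequences are exact. -/
structure Th.Loc : Prop where
  atX : ∀ (i n : ℕ) {Z U X : Var k} (a : Mo Z X) (j : Mo U X), Comp a j →
    ∀ m : T.H i n X, T.R j m = 0 ↔ ∃ z : T.H i n Z, T.P a z = m
  atU : ∀ (i n : ℕ) {Z U X : Var k} (a : Mo Z X) (j : Mo U X), Comp a j →
    ∀ u : T.H i (n + 1) U, T.B a j u = 0 ↔ ∃ m : T.H i (n + 1) X, T.R j m = u

/-- The theorem of Deligne on weights: the eigenvalue one of Frobenius does not occur in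
`H_(2i-1)(Xbar, Q_l(i))`. -/
def Th.Weights : Prop :=
  ∀ (i n : ℕ) (X : Var k), n + 1 = 2 * i → ∀ m : T.H i n X, T.F m = m → m = 0

/-- All maps commute with Frobenius. -/
structure Th.Frob : Prop where
  push : ∀ (i n : ℕ) {X Y : Var k} (f : Mo X Y), f.Pr → ∀ m : T.H i n X, T.P f (T.F m) = T.F (T.P f m)
  res : ∀ (i n : ℕ) {X Y : Var k} (f : Mo X Y), f.Op → ∀ m : T.H i n Y, T.R f (T.F m) = T.F (T.R f m)
  boundary : ∀ (i n : ℕ) {Z U X : Var k} (a : Mo Z X) (j : Mo U X), Comp a j →
    ∀ u : T.H i (n + 1) U, T.B a j (T.F u) = T.F (T.B a j u)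
  cls : ∀ (i : ℕ) (X : Var k) (x : Ps i X), T.F (T.cl i X x) = T.cl i X x

/-- The classes of cycles. -/
structure Th.Cyc : Prop where
  rat : ∀ (i : ℕ) (X : Var k) (c : Ps i X →₀ E), c ∈ OCB.rat E i X → T.C c = 0
  push : ∀ (i : ℕ) {X Y : Var k} (f : Mo X Y), f.Pr → ∀ x : Ps i X,
    (∀ h : di Y (im f x.1) = i, T.P f (T.cl i X x) = (deg f x.1 : E) • T.cl i Y ⟨im f x.1, h⟩) ∧
    (di Y (im f x.1) ≠ i → T.P f (T.cl i X x) = 0)
  closed : ∀ (i : ℕ) {X Y : Var k} (f : Mo X Y), f.Cl → ∀ (x : Ps i X) (h : di Y (im f x.1) = i),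
    T.P f (T.cl i X x) = T.cl i Y ⟨im f x.1, h⟩
  res : ∀ (i : ℕ) {U X : Var k} (j : Mo U X), j.Op → ∀ (x : Ps i U) (h : di X (im j x.1) = i),
    T.R j (T.cl i X ⟨im j x.1, h⟩) = T.cl i U x
  divisors : ∀ (i : ℕ) (X : Var k), DimLE X (i + 1) → T.Inj i X

/-- The published formal properties of l-adic homology which are used. -/
structure Th.Pub : Prop where
  push : T.Push
  loc : T.Loc
  weights : T.Weights
  frob : T.Frob
  cyc : T.Cyc

end Theory

end OCB
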