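import Pool.Agent.OCY.Base

/-!
# OCY: the language of the final statement (one-cycles on varieties over finite fields)

The varieties, their morphisms and points, the cycles, rational equivalence and the homology theories are
defined in `OCY/Base.lean` and `Lib_helper55/Beil/Defs.lean`.
-/

set_option autoImplicit false

open CategoryTheory AlgebraicGeometry

namespace OCY

open Pool.Agent.Lib_helper55.Beil (Var)
open OCB

universe v

variable {k : Type} [Field k] {E : Type} [Field E]

/-! ## Cycles -/

/-- The variety is proper. -/
def Proper (X : Var k) : Prop := IsProper X.f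

/-- The morphism is surjective. -/
def Onto {X Y : Var k} (f : Mo X Y) : Prop := Function.Surjective (im f)

open Classical in
/-- The push-forward of an `i`-dimensional point: the image with the degree of the extension of the
residue fields, or zero if the image has smaller dimension. -/
noncomputable def pfp (E : Type) [Field E] (i : ℕ) {X Y : Var k} (f : Mo X Y) (x : Ps i X) :
    Ps i Y →₀ E :=
  if h : di Y (im f x.1) = i then Finsupp.single ⟨im f x.1, h⟩ (deg f x.1 : E) else 0

/-- The push-forward of an `i`-dimensional cycle. -/
noncomputable def pfc (E : Type) [Field E] (i : ℕ) {X Y : Var k} (f : Mo X Y) :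
    (Ps i X →₀ E) →ₗ[E] (Ps i Y →₀ E) :=
  Finsupp.linearCombination E (pfp E i f)

/-- The push-forward along proper morphisms preserves rational equivalence (Fulton, Intersection theory,
Theorem 1.4). -/
def PushRat (k : Type) [Field k] (E : Type) [Field E] : Prop :=
  ∀ (i : ℕ) {X Y : Var k} (f : Mo X Y), f.Pr → ∀ c ∈ rat E i X, pfc E i f c ∈ rat E i Y

/-- `Curves n P`: the variety `P` is a product of `n` smooth proper curves. -/
inductive Curves (k : Type) [Field k] : ℕ → Var k → Prop
  /-- a smooth proper integral curve -/
  | one (C : Var k) : SP C 1 → Curves k 1 C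
  /-- the product of `A` and the smooth proper integral curve `C` -/
  | mul {n : ℕ} {P A C : Var k} (a : Mo P A) (c : Mo P C) : IsPullback a.g c.g A.f C.f →
      Curves k n A → SP C 1 → Curves k (n + 1) P

/-- The theorem of de Jong on alterations (over a perfect field): every variety `V` of dimension at most
`d` is the image of an open subvariety `U` of a smooth proper variety `W` of dimension at most `d` under a
proper surjective morphism. -/
def DeJong (k : Type) [Field k] : Prop :=
  ∀ (d : ℕ) (V : Var k), DimLE V d → ∃ (W U : Var k) (j : Mo U W) (g : Mo U V),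
    Smooth W.f ∧ Proper W ∧ DimLE W d ∧ j.Op ∧ g.Pr ∧ Onto g

/-! ## Homology -/

section Theory

variable (T : Th.{v} k E)

/-- The linear forms on `H 1 2 X`. -/
abbrev Fo (X : Var k) : Type v := T.H 1 2 X →ₗ[E] E

variable {T} in
/-- The value of a linear form. -/
def Fo.ev {X : Var k} (φ : Fo T X) (m : T.H 1 2 X) : E := φ m

variable {T} in
/-- The inverse image of a linear form under the push-forward along `f`. -/
def Fo.pull {X Y : Var k} (φ : Fo T Y) (f : Mo X Y) : Fo T X := φ ∘ₗ T.pf 1 2 f

/-- The linear form `φ` on `H 1 2 X` is the degree on the line bundle with the projection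
`q : L → X` and the zero section `s : X → L`: `φ m` is the degree of the class `m'` in `H 0 0 X` with
`q^* m' = s_* m` (which is the cap product of `m` and the first Chern class of the line bundle). -/
def IsDeg {X : Var k} (φ : Fo T X) : Prop :=
  ∃ (L : Var k) (q : Mo L X) (s : Mo X L) (p : Mo X (point k)), q.Bun ∧ s.g ≫ q.g = 𝟙 X.X ∧
    ∀ m : T.H 1 2 X, ∃ m' : T.H 0 0 X, T.V q m' = T.P s m ∧
      ∀ x : Ps 0 (point k), T.P p m' = φ.ev m • T.cl 0 (point k) x

/-- Published properties of the degrees on line bundles on proper varieties. -/
structure Lines : Prop where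
  /-- tensor products -/
  sub : ∀ {X : Var k}, Proper X → ∀ φ ψ : Fo T X, IsDeg T φ → IsDeg T ψ → IsDeg T (φ - ψ)
  /-- the trivial bundle -/
  triv : ∀ {X : Var k}, Proper X → IsDeg T (0 : Fo T X)
  /-- the inverse image of a line bundle and the projection formula -/
  pull : ∀ {X Y : Var k} (f : Mo X Y), Proper X → Proper Y → ∀ φ : Fo T Y, IsDeg T φ →
    IsDeg T (φ.pull f)
  /-- the degree of a line bundle on a curve is an integer -/
  int : ∀ {X : Var k}, Proper X → ∀ φ : Fo T X, IsDeg T φ →
    ∀ x : Ps 1 X, ∃ n : ℤ, φ.ev (T.cl 1 X x) = n
  /-- a numerically trivial line bundle is homologically trivial (Matsusaka, Kleiman) -/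
  num : ∀ {X : Var k}, Proper X → ∀ φ : Fo T X, IsDeg T φ →
    (∀ x : Ps 1 X, φ.ev (T.cl 1 X x) = 0) → φ = 0

/-- Descent for proper surjective morphisms (Deligne) and weights: the sequence
`H_2i(X x_Y X) → H_2i(X) → H_2i(Y) → 0` is exact on the generalised eigenspaces of Frobenius for the
eigenvalue one (twist `i`). -/
structure Descent : Prop where
  onto : ∀ (i : ℕ) {X Y : Var k} (f : Mo X Y), f.Pr → Onto f →
    ∀ m ∈ Module.End.maxGenEigenspace (T.fr i (2 * i) Y) 1, ∃ m' : T.H i (2 * i) X, T.P f m' = m
  exact : ∀ (i : ℕ) {R X Y : Var k} (p q : Mo R X) (f : Mo X Y), f.Pr → Onto f → Ca p q f f →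
    ∀ m ∈ Module.End.maxGenEigenspace (T.fr i (2 * i) X) 1, T.P f m = 0 →
      ∃ r : T.H i (2 * i) R, m = T.P p r - T.P q r

/-- Zero-cycles over a finite field: the class map is surjective onto the invariants of Frobenius, the
eigenvalue one is semisimple, for proper varieties the class map is injective. -/
structure Zero : Prop where
  surj : ∀ X : Var k, T.Surj 0 X ∧ T.Semi 0 X
  inj : ∀ X : Var k, Proper X → T.Inj 0 X

/-- Poincare duality for the smooth proper integral variety `W` of dimension `d + 1`: a nondegenerate
bilinear pairing `B` of `H_2d(Wbar, Q_l(d)) = H^2(Wbar, Q_l(1))` and `H_2(Wbar, Q_l(1))` which is invariant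
under Frobenius, such that the class of a prime divisor defines the degree on the associated line
bundle. -/
structure Dual (W : Var k) (d : ℕ) (B : T.H d (2 * d) W → Fo T W) : Prop where
  add : ∀ n n' : T.H d (2 * d) W, B (n + n') = B n + B n'
  smul : ∀ (e : E) (n : T.H d (2 * d) W), B (e • n) = e • B n
  nondeg : ∀ m : T.H 1 2 W, (∀ n, (B n).ev m = 0) → m = 0
  frob : ∀ (n : T.H d (2 * d) W) (m : T.H 1 2 W), (B (T.F n)).ev (T.F m) = (B n).ev m
  deg : ∀ x : Ps d W, IsDeg T (B (T.cl d W x))

/-- The further published facts. -/
structure Facts : Prop where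
  lines : Lines T
  duality : ∀ (W : Var k) (d : ℕ), SP W (d + 1) → ∃ B : T.H d (2 * d) W → Fo T W, Dual T W d B
  descent : Descent T
  zero : Zero T
  fulton : PushRat k E

/-- The variety `W` is proper and a one-cycle on `W` which has degree zero on all line bundles is
rationally equivalent to zero. -/
structure Num (W : Var k) : Prop where
  proper : Proper W
  num : ∀ c : Ps 1 W →₀ E, (∀ φ : Fo T W, IsDeg T φ → φ.ev (T.C c) = 0) → c ∈ rat E 1 W

/-- The proper variety `W` is good for one-cycles: the class map is surjective onto the invariants of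
Frobenius, the eigenvalue one is semisimple, and a one-cycle which has degree zero on all line bundles is
rationally equivalent to zero. -/
structure Good (W : Var k) : Prop where
  proper : Proper W
  surj : T.Surj 1 W
  semi : T.Semi 1 W
  num : ∀ c : Ps 1 W →₀ E, (∀ φ : Fo T W, IsDeg T φ → φ.ev (T.C c) = 0) → c ∈ rat E 1 W

/-- The generalised Beilinson conjecture for `i`-cycles on `X` (with the semisimplicity of the
eigenvalue one). -/
def Q1at (i : ℕ) (X : Var k) : Prop := T.Inj i X ∧ T.Surj i X ∧ T.Semi i X

/-- The theorems of Tate and Soule for products of curves over a finite field. -/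
structure Products : Prop where
  good : ∀ (n : ℕ) (P : Var k), Curves k n P → Good T P
  tate : ∀ (n : ℕ) (P : Var k), Curves k n P → n ≤ 3 → T.Tate P

/-- The main results.  Always `U` is an open subvariety of `W` or `X` (with inclusion `j`) and
`g : U → V` is a proper surjective morphism onto any variety `V` (for example `U = V`). -/
structure Main : Prop where
  /-- the full conjecture for every open subvariety `V` of a smooth proper threefold `X` with the
  conjecture -/
  threefolds : ∀ (X V : Var k) (j : Mo V X), SP X 3 → T.Q1 X → j.Op → T.Q1 V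
  /-- one-cycles, if `X` is smooth proper of dimension `d + 1` and satisfies the conjecture for
  one-cycles and for divisors -/
  onecycles : ∀ (d : ℕ) (X U V : Var k) (j : Mo U X) (g : Mo U V), SP X (d + 1) → Q1at T 1 X →
    Q1at T d X → j.Op → g.Pr → Onto g → Q1at T 1 V
  /-- the conjecture for `i`-cycles with `i ≤ 1` or `i ≥ dim V - 1` (all `i` if `V` has dimension at most
  three), if `X` is smooth proper of any dimension and satisfies the conjecture -/
  outer : ∀ (d : ℕ) (X U V : Var k) (j : Mo U X) (g : Mo U V), SP X (d + 1) → T.Q1 X → j.Op →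
    g.Pr → Onto g → ∀ D i : ℕ, DimLE V D → i ≤ 1 ∨ D ≤ i + 1 → Q1at T i V
  /-- the injectivity for one-cycles needs only that numerically trivial one-cycles on `W` are
  rationally equivalent to zero -/
  inj : ∀ (W U V : Var k) (j : Mo U W) (g : Mo U V), Num T W → j.Op → g.Pr → Onto g → T.Inj 1 V
  /-- one-cycles for good `W` -/
  images : ∀ (W U V : Var k) (j : Mo U W) (g : Mo U V), Good T W → j.Op → g.Pr → Onto g →
    Q1at T 1 V
  /-- smooth proper varieties with the conjecture for one-cycles and for divisors are good -/
  good : ∀ (d : ℕ) (W : Var k), SP W (d + 1) → Q1at T 1 W → Q1at T d W → Good T W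

/-- The results for open subvarieties `U` of products `P` of curves and proper surjective morphisms
`g : U → V`. -/
structure MainProducts : Prop where
  /-- one-cycles -/
  onecycles : ∀ (n : ℕ) (P U V : Var k) (j : Mo U P) (g : Mo U V), Curves k n P → j.Op → g.Pr →
    Onto g → Q1at T 1 V
  /-- the full conjecture for products of at most three curves -/
  full : ∀ (n : ℕ) (P U V : Var k) (j : Mo U P) (g : Mo U V), Curves k n P → n ≤ 3 → j.Op → g.Pr →
    Onto g → DimLE V 3 → T.Q1 V

/-- If on all smooth proper varieties of dimension at most `d` the numerically trivial one-cycles are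
rationally equivalent to zero, then the class map for one-cycles is injective for all varieties of
dimension at most `d`. -/
def Reduction : Prop :=
  ∀ d : ℕ, (∀ W : Var k, Smooth W.f → Proper W → DimLE W d → Num T W) →
    ∀ V : Var k, DimLE V d → T.Inj 1 V

end Theory

end OCY
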