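import Pool.Agent.OCY.Defs

/-!
# OCY: the criterion for cycles of arbitrary dimension
-/

set_option autoImplicit false

open CategoryTheory AlgebraicGeometry

namespace OCY

open Pool.Agent.Lib_helper55.Beil (Var)
open OCB

universe v

variable {k : Type} [Field k] {E : Type} [Field E] (T : Th.{v} k E)

/-- The class of a cycle with integral coefficients. -/
noncomputable def CZ {i : ℕ} {X : Var k} (c : Ps i X →₀ ℤ) : T.H i (2 * i) X :=
  c.sum fun x n => n • T.cl i X x

/-- Poincare duality for the smooth proper integral variety `X` of dimension `d + i`: a bilinear pairing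
`B` of `H_2d(Xbar, Q_l(d)) = H^2i(Xbar, Q_l(i))` and `H_2i(Xbar, Q_l(i))`, nondegenerate, invariant under
Frobenius, with integral intersection numbers. -/
structure Pairing (X : Var k) (d i : ℕ) (B : T.H d (2 * d) X → T.H i (2 * i) X → E) : Prop where
  addl : ∀ (n n' : T.H d (2 * d) X) (m : T.H i (2 * i) X), B (n + n') m = B n m + B n' m
  smull : ∀ (e : E) (n : T.H d (2 * d) X) (m : T.H i (2 * i) X), B (e • n) m = e * B n m
  addr : ∀ (n : T.H d (2 * d) X) (m m' : T.H i (2 * i) X), B n (m + m') = B n m + B n m'
  smulr : ∀ (e : E) (n : T.H d (2 * d) X) (m : T.H i (2 * i) X), B n (e • m) = e * B n m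
  nondeg : ∀ m : T.H i (2 * i) X, (∀ n, B n m = 0) → m = 0
  frob : ∀ (n : T.H d (2 * d) X) (m : T.H i (2 * i) X), B (T.F n) (T.F m) = B n m
  int : ∀ (x : Ps d X) (y : Ps i X), ∃ r : ℤ, B (T.cl d X x) (T.cl i X y) = r

/-- For the algebraic classes of codimension `i` on `X` (the classes of the `d`-cycles `c` with integral
coefficients) and the morphism `a : Z → X` (for example the inclusion of a closed subvariety): if the
restriction to `Z` is numerically trivial (orthogonal to all `i`-dimensional cycles on `Z`) then it is
homologically trivial (orthogonal to `H_2i(Zbar, Q_l(i))`). -/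
def NumHom {X Z : Var k} {d i : ℕ} (B : T.H d (2 * d) X → T.H i (2 * i) X → E) (a : Mo Z X) : Prop :=
  ∀ c : Ps d X →₀ ℤ, (∀ z : Ps i Z, B (CZ T c) (T.P a (T.cl i Z z)) = 0) →
    ∀ t : T.H i (2 * i) Z, B (CZ T c) (T.P a t) = 0

/-- The homology in degree twice the dimension is spanned by the classes of the components. -/
def Top : Prop := ∀ (i : ℕ) (X : Var k), DimLE X i → T.Surj i X ∧ T.Semi i X

/-- The criterion and its consequence; `V` is the complement of the closed subvariety `Z` of `X`. -/
structure Open : Prop where
  /-- if `X` is smooth proper of dimension `d + i` and satisfies the conjecture for cycles of dimension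
  and of codimension `i`, then the conjecture for `i`-cycles on `V` is equivalent to: the algebraic classes
  of codimension `i` on `X` which are numerically trivial on `Z` are homologically trivial on `Z` -/
  criterion : ∀ (d i : ℕ) (X Z V : Var k) (a : Mo Z X) (j : Mo V X)
    (B : T.H d (2 * d) X → T.H i (2 * i) X → E), SP X (d + i) → Pairing T X d i B →
    Q1at T i X → Q1at T d X → Comp a j → (Q1at T i V ↔ NumHom T B a)
  /-- the full conjecture for `X` smooth proper of any dimension implies the full conjecture for `V`, if
  `Z` has dimension at most two -/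
  removal : ∀ (d : ℕ) (X Z V : Var k) (a : Mo Z X) (j : Mo V X), SP X (d + 1) → T.Q1 X → Comp a j →
    DimLE Z 2 → T.Q1 V

/-- With alterations it suffices to know `NumHom` for the morphisms `f : W → X` from smooth proper
varieties `W` of dimension at most `dim Z` (this is a case of the equality of homological and numerical
equivalence on `W`). -/
def Smoothly : Prop :=
  ∀ (d i : ℕ) (X Z V : Var k) (a : Mo Z X) (j : Mo V X)
    (B : T.H d (2 * d) X → T.H i (2 * i) X → E), SP X (d + i) → Pairing T X d i B →
    Q1at T i X → Q1at T d X → Comp a j → ∀ D : ℕ, DimLE Z D →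
    (∀ (W : Var k) (f : Mo W X), Smooth W.f → Proper W → DimLE W D → NumHom T B f) → Q1at T i V

end OCY
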